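import Mathlib
import Pool.Agent.H86.CMLib.Y114.GF.Defs

/-!
# Places of maximally unipotent monodromy
-/

set_option autoImplicit false

namespace Pool.Agent.Y114.MU

open NumberField IsDedekindDomain Polynomial Pool.Agent.Y114.TF Pool.Agent.Y114.GF

/-- Three (complex) roots of the rational polynomial `f` are multiplicatively independent. -/
def ThreeIndependent (f : ℚ[X]) : Prop :=
  ∃ z : Fin 3 → ℂ, (∀ i, aeval (z i) f = 0) ∧ ∀ e : Fin 3 → ℤ, ∏ i, z i ^ e i = 1 → e = 0

section group

variable {ι : Type} {n : ι → ℕ} {Γ : Type} [Group Γ] (R : Realizations n Γ) (ℓ : ℕ) [Fact ℓ.Prime]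
  (i : ι)

/-- `g` acts unipotently on the `i`-th `ℓ`-adic representation. -/
def ActsUnipotently (g : Γ) : Prop := IsNilpotent (R.ρ ℓ i g - 1)

/-- `(g - 1) ^ m` acts as zero on the `i`-th `ℓ`-adic representation. -/
def PowZero (g : Γ) (m : ℕ) : Prop := (R.ρ ℓ i g - 1) ^ m = 0

/-- `g` and `h` act in the same way on the `i`-th `ℓ`-adic representation. -/
def SameAction (g h : Γ) : Prop := R.ρ ℓ i g = R.ρ ℓ i h

/-- `f` is the characteristic polynomial of `g` on the `i`-th `ℓ`-adic representation. -/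
def HasCharpoly (g : Γ) (f : ℚ[X]) : Prop := (R.ρ ℓ i g).charpoly = f.map (algebraMap ℚ ℚ_[ℓ])

end group

section galois

variable {F : Type} [Field F]

/-- `g` is in the inertia group at `Q`. -/
def InInertiaAt (Q : Ideal (𝓞 (AlgebraicClosure F))) (g : Gal(AlgebraicClosure F/F)) : Prop :=
  ∀ x : 𝓞 (AlgebraicClosure F), g • x - x ∈ Q

/-- `g` is an (arithmetic) Frobenius element at `Q`, for the residue field with `m` elements. -/
def IsFrobAt (Q : Ideal (𝓞 (AlgebraicClosure F))) (m : ℕ) (g : Gal(AlgebraicClosure F/F)) : Prop :=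
  ∀ x : 𝓞 (AlgebraicClosure F), g • x - x ^ m ∈ Q

end galois

variable {F : Type} [Field F] [NumberField F] {ι : Type} {n : ι → ℕ}

/-- The `i`-th representations have good reduction at `v`: for `ℓ` not below `v` they are unramified
at `v`, and geometric Frobenius elements have the same characteristic polynomial `P` for all `ℓ`,
which is pure of weight `w`. -/
def GoodFor (R : Realizations n Gal(AlgebraicClosure F/F)) (w : ℕ) (i : ι)
    (v : HeightOneSpectrum (𝓞 F)) : Prop :=
  ∃ P : ℚ[X], (∀ a ∈ P.aroots ℂ, ‖a‖ ^ 2 = (q v : ℝ) ^ w) ∧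
    ∀ (ℓ : ℕ) [Fact ℓ.Prime], ¬ Above v ℓ → ∀ Q, PrimeOver Q v → ∀ g,
      (InInertiaAt Q g → SameAction R ℓ i g 1) ∧ (IsFrobAt Q (q v) g → HasCharpoly R ℓ i g⁻¹ P)

/-- The `i`-th representations have maximally unipotent monodromy at `v`: for `ℓ` not below `v` and
all `Q` above `v`, the inertia group at `Q` acts unipotently, some element `τ` of it acts with only
one Jordan block (`(τ - 1) ^ (n i - 1)` does not act as zero), and `φ τ φ⁻¹` acts as `τ ^ q`, for
all (arithmetic) Frobenius elements `φ` at `Q`, where `q` is the order of the residue field. -/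
def MaxUnipotentAt (R : Realizations n Gal(AlgebraicClosure F/F)) (i : ι)
    (v : HeightOneSpectrum (𝓞 F)) : Prop :=
  ∀ (ℓ : ℕ) [Fact ℓ.Prime], ¬ Above v ℓ → ∀ Q, PrimeOver Q v →
    (∀ g, InInertiaAt Q g → ActsUnipotently R ℓ i g) ∧
    ∃ τ, InInertiaAt Q τ ∧ ¬ PowZero R ℓ i τ (n i - 1) ∧
      ∀ φ, IsFrobAt Q (q v) φ → SameAction R ℓ i (φ * τ * φ⁻¹) (τ ^ q v)

/-- At `v` the `i`-th representations are distinguished from the other ones: for `j ≠ i`, for `ℓ` not
below `v` and all `Q` above `v`, some positive power `τ ^ e` of each element `τ` of the inertia group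
at `Q` acts unipotently on the `j`-th representation, and `(τ ^ e - 1) ^ (n j - 1)` acts as zero if
`n j = n i` (so the `j`-th representations do not have maximally unipotent monodromy at `v`). -/
def DistinguishedAt (R : Realizations n Gal(AlgebraicClosure F/F)) (i : ι)
    (v : HeightOneSpectrum (𝓞 F)) : Prop :=
  ∀ j, j ≠ i → ∀ (ℓ : ℕ) [Fact ℓ.Prime], ¬ Above v ℓ → ∀ Q, PrimeOver Q v →
    ∀ τ, InInertiaAt Q τ → ∃ e : ℕ, 0 < e ∧ ActsUnipotently R ℓ j (τ ^ e) ∧
      (n j = n i → PowZero R ℓ j (τ ^ e) (n j - 1))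

end Pool.Agent.Y114.MU
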