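import Mathlib
import Pool.Agent.H86.CMLib.Y114.MU.Reg

/-!
# Eigenvectors adapted to a regular nilpotent endomorphism
-/

set_option autoImplicit false
set_option linter.unusedSectionVars false

namespace Pool.Agent.Y114.MU

open Module Polynomial Pool.Agent.Y114.AP

/-- A stable subspace contains the components, in eigenspaces, of its elements. -/
theorem split_mem {k M : Type*} [Field k] [AddCommGroup M] [Module k M] (A : M →ₗ[k] M)
    (L : Submodule k M) (hL : ∀ x ∈ L, A x ∈ L) {ι : Type*} [DecidableEq ι] (s : Finset ι)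
    (μ : ι → k) (hinj : ∀ i ∈ s, ∀ j ∈ s, μ i = μ j → i = j) :
    ∀ (x : ι → M), (∀ i ∈ s, A (x i) = μ i • x i) → ∑ i ∈ s, x i ∈ L → ∀ i ∈ s, x i ∈ L := by
  induction s using Finset.induction_on with
  | empty =>
    intro x _ _ i hi
    exact absurd hi (Finset.notMem_empty i)
  | insert a s ha ih =>
    intro x hx hsum
    have ih' := ih fun i hi j hj => hinj i (Finset.mem_insert_of_mem hi) j
      (Finset.mem_insert_of_mem hj)
    have h1 : A (∑ i ∈ insert a s, x i) - μ a • ∑ i ∈ insert a s, x i ∈ L :=
      Submodule.sub_mem _ (hL _ hsum) (Submodule.smul_mem _ _ hsum)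
    have h2 : A (∑ i ∈ insert a s, x i) - μ a • ∑ i ∈ insert a s, x i =
        ∑ i ∈ s, (μ i - μ a) • x i := by
      rw [Finset.sum_insert ha, map_add, map_sum, hx a (Finset.mem_insert_self a s), smul_add,
        add_sub_add_left_eq_sub, Finset.smul_sum, ← Finset.sum_sub_distrib]
      refine Finset.sum_congr rfl fun i hi => ?_
      rw [hx i (Finset.mem_insert_of_mem hi), sub_smul]
    rw [h2] at h1
    have h3 := ih' (fun i => (μ i - μ a) • x i) (fun i hi => by
      rw [map_smul, hx i (Finset.mem_insert_of_mem hi), smul_comm]) h1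
    have h4 : ∀ i ∈ s, x i ∈ L := by
      intro i hi
      have h5 : μ i - μ a ≠ 0 := by
        intro h6
        have := hinj i (Finset.mem_insert_of_mem hi) a (Finset.mem_insert_self a s)
          (sub_eq_zero.1 h6)
        exact ha (this ▸ hi)
      have h6 := Submodule.smul_mem L (μ i - μ a)⁻¹ (h3 i hi)
      rwa [smul_smul, inv_mul_cancel₀ h5, one_smul] at h6
    intro i hi
    rcases Finset.mem_insert.1 hi with rfl | hi
    · rw [Finset.sum_insert ha] at hsum
      have h5 := Submodule.sub_mem L hsum (Submodule.sum_mem L h4)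
      rwa [add_sub_cancel_right] at h5
    · exact h4 i hi

variable {k : Type*} [Field k] [CharZero k] {V : Type*} [AddCommGroup V] [Module k V]
  [FiniteDimensional k V] {N : End k V} {r : ℕ}

theorem comm_pow {H : End k V} (hH : H * N - N * H = N) (m : ℕ) :
    H * N ^ m = N ^ m * H + (m : k) • N ^ m := by
  induction m with
  | zero => simp
  | succ m ih =>
    have h1 : H * N = N * H + N := by rw [← sub_eq_iff_eq_add', hH]
    rw [pow_succ, ← mul_assoc, ih, add_mul, mul_assoc, h1, mul_add, smul_mul_assoc,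
      Nat.cast_succ, add_smul, one_smul, mul_assoc]
    abel

/-- An eigenvector which is a cyclic vector for `N`. -/
theorem Reg.exists_adapted (h : Reg N r) {H : End k V} (hH : H * N - N * H = N) :
    ∃ (v : V) (c : k), (N ^ r) v ≠ 0 ∧ H v = c • v := by
  obtain ⟨v, hv⟩ := h.exists_vec
  obtain ⟨c, hc⟩ := h.exists_coeff hv (H v)
  have hcp := comm_pow hH
  have hNr : ∀ (m : ℕ) (x : V), (N ^ m) (H x) = H ((N ^ m) x) - (m : k) • (N ^ m) x := by
    intro m x
    have h1 := congrArg (fun T : End k V => T x) (hcp m)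
    simp only [Module.End.mul_apply, LinearMap.add_apply, LinearMap.smul_apply] at h1
    rw [h1, add_sub_cancel_right]
  set K := LinearMap.ker (N ^ r) with hK
  have hNrv : (N ^ r) (H v) = c 0 • (N ^ r) v := by
    rw [hc, map_sum, Finset.sum_range_succ', Finset.sum_eq_zero, zero_add, map_smul, pow_zero,
      Module.End.one_apply]
    intro i _
    rw [map_smul, ← Module.End.mul_apply, ← pow_add, h.pow_zero_of_lt (show r < r + (i + 1) by omega),
      LinearMap.zero_apply, smul_zero]
  set D : End k V := H - c 0 • (1 : End k V) with hD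
  have hDapp : ∀ x, D x = H x - c 0 • x := fun x => rfl
  have hDK : ∀ x ∈ K, D x ∈ K := by
    intro x hx
    rw [LinearMap.mem_ker] at hx ⊢
    rw [hDapp, map_sub, map_smul, hNr, hx, map_zero, smul_zero, smul_zero, sub_self, sub_self]
  have hHr : H ((N ^ r) v) = (c 0 + r) • (N ^ r) v := by
    have h1 := hNr r v
    rw [hNrv] at h1
    rw [add_smul, h1]
    abel
  have hinj : Function.Injective (D.restrict hDK) := by
    rw [injective_iff_map_eq_zero]
    rintro ⟨x, hx⟩ hx0
    have hx1 : D x = 0 := congrArg Subtype.val hx0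
    rw [hDapp, sub_eq_zero] at hx1
    rw [Submodule.mk_eq_zero]
    by_contra hne
    have hex : ∃ m, (N ^ m) x = 0 := ⟨r, hx⟩
    classical
    set m := Nat.find hex with hm
    have hm1 : (N ^ m) x = 0 := Nat.find_spec hex
    have hm0 : m ≠ 0 := by
      intro h0
      rw [h0, pow_zero] at hm1
      exact hne hm1
    obtain ⟨m', hm'⟩ := Nat.exists_eq_succ_of_ne_zero hm0
    have hm2 : (N ^ m') x ≠ 0 := Nat.find_min hex (by omega)
    have hmr : m ≤ r := Nat.find_min' hex hx
    have h1 : N ((N ^ m') x) = 0 := by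
      rw [← Module.End.mul_apply, ← pow_succ']
      rw [hm'] at hm1
      exact hm1
    obtain ⟨d, hd⟩ := h.ker_one hv h1
    have h2 : H ((N ^ m') x) = (c 0 + m') • (N ^ m') x := by
      have h3 := hNr m' x
      rw [hx1, map_smul] at h3
      rw [add_smul, h3]
      abel
    have h3 : H ((N ^ m') x) = (c 0 + r) • (N ^ m') x := by
      rw [hd, map_smul, hHr, smul_comm]
    rw [h2] at h3
    have h4 : ((c 0 + m') - (c 0 + r)) • (N ^ m') x = 0 := by
      rw [sub_smul, h3, sub_self]
    rcases smul_eq_zero.1 h4 with h5 | h5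
    · have h6 : (m' : k) = r := by linear_combination h5
      have h7 : m' = r := by exact_mod_cast h6
      omega
    · exact hm2 h5
  have hsurj := LinearMap.surjective_of_injective hinj
  have hDv : D v ∈ K := by
    rw [LinearMap.mem_ker, hDapp, map_sub, map_smul, hNrv, sub_self]
  obtain ⟨⟨x, hx⟩, hx'⟩ := hsurj ⟨D v, hDv⟩
  have hx1 : D x = D v := congrArg Subtype.val hx'
  refine ⟨v - x, c 0, ?_, ?_⟩
  · rw [map_sub, LinearMap.mem_ker.1 hx, sub_zero]
    exact hv
  · have h1 : D (v - x) = 0 := by rw [map_sub, hx1, sub_self]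
    rw [hDapp, sub_eq_zero] at h1
    exact h1

/-- An endomorphism which is triangular with respect to a cyclic vector: the determinant. -/
theorem Reg.det (h : Reg N r) {F : End k V} {q : k} (hF : F * N = q • (N * F)) {w : V}
    (hw0 : w ≠ 0) (hw : N w = 0) {b : k} (hb : F w = b • w) :
    LinearMap.det F * q ^ (r * (r + 1) / 2) = b ^ (r + 1) := by
  obtain ⟨v, hv⟩ := h.exists_vec
  obtain ⟨c, hc⟩ := h.exists_coeff hv (F v)
  have hFp : ∀ m, F * N ^ m = q ^ m • (N ^ m * F) := by
    intro m
    induction m with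
    | zero => simp
    | succ m ih =>
      rw [pow_succ, ← mul_assoc, ih, smul_mul_assoc, mul_assoc, hF, mul_smul_comm, smul_smul,
        ← pow_succ, mul_assoc]
  have hFv : ∀ m, F ((N ^ m) v) = ∑ i ∈ Finset.range (r + 1), (q ^ m * c i) • (N ^ (i + m)) v := by
    intro m
    calc F ((N ^ m) v) = (F * N ^ m) v := rfl
      _ = q ^ m • (N ^ m) (F v) := by rw [hFp]; rfl
      _ = _ := by
        rw [hc, map_sum, Finset.smul_sum]
        refine Finset.sum_congr rfl fun i _ => ?_
        rw [map_smul, smul_smul, ← Module.End.mul_apply, ← pow_add, add_comm]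
  have hmat : ∀ i j : Fin (r + 1), LinearMap.toMatrix (h.bas hv) (h.bas hv) F i j =
      if (j : ℕ) ≤ i then q ^ (j : ℕ) * c (i - j) else 0 := by
    intro i j
    rw [LinearMap.toMatrix_apply, h.bas_apply hv, hFv]
    have h1 : ∑ l ∈ Finset.range (r + 1), (q ^ (j : ℕ) * c l) • (N ^ (l + (j : ℕ))) v =
        ∑ l : Fin (r + 1), (if (j : ℕ) ≤ l then q ^ (j : ℕ) * c (l - j) else 0) • (h.bas hv) l := by
      have h2 : ∀ l : Fin (r + 1), (if (j : ℕ) ≤ l then q ^ (j : ℕ) * c (l - j) else 0) •
          (h.bas hv) l = (fun l : ℕ => (if (j : ℕ) ≤ l then q ^ (j : ℕ) * c (l - j) else 0) •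
          (N ^ l) v) l := by
        intro l
        rw [h.bas_apply hv]
      rw [Finset.sum_congr rfl fun l _ => h2 l, ← Finset.sum_range
        (fun l : ℕ => (if (j : ℕ) ≤ l then q ^ (j : ℕ) * c (l - j) else 0) • (N ^ l) v)]
      have h3 : ∑ l ∈ Finset.range (r + 1), (if (j : ℕ) ≤ l then q ^ (j : ℕ) * c (l - j) else 0) •
          (N ^ l) v = ∑ l ∈ (Finset.range (r + 1)).filter (fun l => (j : ℕ) ≤ l),
            (q ^ (j : ℕ) * c (l - j)) • (N ^ l) v := by
        rw [Finset.sum_filter]
        refine Finset.sum_congr rfl fun l _ => ?_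
        split_ifs
        · rfl
        · rw [zero_smul]
      have h4 : ∑ l ∈ Finset.range (r + 1), (q ^ (j : ℕ) * c l) • (N ^ (l + (j : ℕ))) v =
          ∑ l ∈ (Finset.range (r + 1)).filter (fun l => l + (j : ℕ) < r + 1),
            (q ^ (j : ℕ) * c l) • (N ^ (l + (j : ℕ))) v := by
        rw [Finset.sum_filter]
        refine Finset.sum_congr rfl fun l _ => ?_
        split_ifs with h5
        · rfl
        · have h6 : N ^ (l + (j : ℕ)) = 0 := h.pow_zero_of_lt (by omega)
          rw [h6, LinearMap.zero_apply, smul_zero]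
      rw [h3, h4]
      refine Finset.sum_bij (fun l _ => l + (j : ℕ)) ?_ ?_ ?_ ?_
      · intro a ha
        rw [Finset.mem_filter, Finset.mem_range] at ha ⊢
        omega
      · intro a _ b _ hab
        omega
      · intro b hb
        rw [Finset.mem_filter, Finset.mem_range] at hb
        refine ⟨b - j, ?_, by omega⟩
        rw [Finset.mem_filter, Finset.mem_range]
        omega
      · intro a _
        rw [Nat.add_sub_cancel]
    rw [h1, Basis.repr_sum_self]
  have htri : (LinearMap.toMatrix (h.bas hv) (h.bas hv) F).BlockTriangular OrderDual.toDual := by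
    intro i j hij
    rw [hmat, if_neg]
    have : i < j := hij
    exact not_le.2 this
  have hdet : LinearMap.det F = q ^ (r * (r + 1) / 2) * c 0 ^ (r + 1) := by
    rw [← LinearMap.det_toMatrix (h.bas hv), Matrix.det_of_isLowerTriangular _ htri]
    have h1 : ∀ i : Fin (r + 1), LinearMap.toMatrix (h.bas hv) (h.bas hv) F i i =
        q ^ (i : ℕ) * c 0 := by
      intro i
      rw [hmat, if_pos le_rfl, Nat.sub_self]
    rw [Finset.prod_congr rfl fun i _ => h1 i, Finset.prod_mul_distrib, Finset.prod_const,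
      Finset.card_univ, Fintype.card_fin]
    congr 1
    rw [Finset.prod_pow_eq_pow_sum, ← Finset.sum_range (fun i => i), Finset.sum_range_id]
    congr 1
    rw [Nat.add_sub_cancel, mul_comm]
  have hbc : b = q ^ r * c 0 := by
    obtain ⟨d, hd⟩ := h.ker_one hv hw
    have hd0 : d ≠ 0 := by
      rintro rfl
      rw [zero_smul] at hd
      exact hw0 hd
    have h1 : F ((N ^ r) v) = (q ^ r * c 0) • (N ^ r) v := by
      rw [hFv, Finset.sum_range_succ', Finset.sum_eq_zero, zero_add, zero_add]
      intro i _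
      have h6 : N ^ (i + 1 + r) = 0 := h.pow_zero_of_lt (by omega)
      rw [h6, LinearMap.zero_apply, smul_zero]
    rw [hd, map_smul, h1] at hb
    have h2 : (d * (q ^ r * c 0) - b * d) • (N ^ r) v = 0 := by
      rw [smul_smul, smul_smul] at hb
      rw [sub_smul, hb, sub_self]
    rcases smul_eq_zero.1 h2 with h3 | h3
    · have h4 : d * (q ^ r * c 0 - b) = 0 := by linear_combination h3
      rcases mul_eq_zero.1 h4 with h5 | h5
      · exact absurd h5 hd0
      · linear_combination -h5
    · exact absurd h3 hv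
  rw [hdet, hbc, mul_pow]
  have h1 : (q ^ r) ^ (r + 1) = q ^ (r * (r + 1) / 2) * q ^ (r * (r + 1) / 2) := by
    rw [← pow_mul, ← pow_add]
    congr 1
    have := Nat.even_mul_succ_self r
    obtain ⟨t, ht⟩ := this
    omega
  rw [h1]
  ring

end Pool.Agent.Y114.MU
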