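import Mathlib
import Pool.Agent.H86.CMLib.Y114.MU.Rad

/-!
# The principal triple of an irreducible Lie algebra with a regular nilpotent element
-/

set_option autoImplicit false
set_option linter.unusedSectionVars false

namespace Pool.Agent.Y114.MU

open Module Pool.Agent.Y114.AP

variable {k : Type*} [Field k] [CharZero k] {V : Type*} [AddCommGroup V] [Module k V]
  [FiniteDimensional k V]

/-- The trace form. -/
noncomputable def TF : LinearMap.BilinForm k (End k V) :=
  LinearMap.mk₂ k (fun X Y => LinearMap.trace k V (X * Y))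
    (fun a b c => by rw [add_mul, map_add]) (fun c a b => by rw [smul_mul_assoc, map_smul])
    (fun a b c => by rw [mul_add, map_add]) (fun c a b => by rw [mul_smul_comm, map_smul])

theorem TF_apply (X Y : End k V) : TF X Y = LinearMap.trace k V (X * Y) := rfl

theorem exists_preimage (L : Submodule k (End k V)) (hbr : ∀ X ∈ L, ∀ Y ∈ L, X * Y - Y * X ∈ L)
    (hnd : ∀ X ∈ L, (∀ Y ∈ L, LinearMap.trace k V (X * Y) = 0) → X = 0) {N : End k V}
    (hN : N ∈ L) {x : End k V} (hx : x ∈ L)
    (hxz : ∀ z ∈ L, z * N = N * z → LinearMap.trace k V (z * x) = 0) :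
    ∃ y ∈ L, N * y - y * N = x := by
  classical
  let A : L →ₗ[k] L :=
    { toFun := fun y => ⟨N * y.1 - y.1 * N, hbr N hN y.1 y.2⟩
      map_add' := fun a b => Subtype.ext (by
        change N * (a.1 + b.1) - (a.1 + b.1) * N = (N * a.1 - a.1 * N) + (N * b.1 - b.1 * N)
        noncomm_ring)
      map_smul' := fun c a => Subtype.ext (by
        change N * (c • a.1) - (c • a.1) * N = c • (N * a.1 - a.1 * N)
        rw [mul_smul_comm, smul_mul_assoc, smul_sub]) }
  by_contra hcon
  have hxW : (⟨x, hx⟩ : L) ∉ LinearMap.range A := by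
    rintro ⟨y, hy⟩
    exact hcon ⟨y.1, y.2, congrArg Subtype.val hy⟩
  obtain ⟨f, hfx, hf⟩ := Submodule.exists_le_ker_of_notMem hxW
  let B : LinearMap.BilinForm k L := TF.restrict L
  have hBapp : ∀ a b : L, B a b = LinearMap.trace k V (a.1 * b.1) := fun a b => rfl
  have hB : B.Nondegenerate := by
    have hs : B.IsSymm := ⟨fun a b => by
      change LinearMap.trace k V (a.1 * b.1) = LinearMap.trace k V (b.1 * a.1)
      rw [LinearMap.trace_mul_comm]⟩
    refine (hs.isRefl.nondegenerate_iff_separatingLeft).2 ?_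
    intro a ha
    exact Subtype.ext (hnd a.1 a.2 fun Y hY => ha ⟨Y, hY⟩)
  set z : L := (B.toDual hB).symm f with hz
  have hzf : ∀ y, B z y = f y := fun y => LinearMap.BilinForm.apply_toDual_symm_apply ..
  have hzN : z.1 * N = N * z.1 := by
    rw [← sub_eq_zero]
    refine hnd _ (hbr _ z.2 _ hN) fun Y hY => ?_
    have h1 : f (A ⟨Y, hY⟩) = 0 := hf ⟨_, rfl⟩
    rw [← hzf, hBapp] at h1
    have h2 : LinearMap.trace k V ((z.1 * N - N * z.1) * Y) =
        LinearMap.trace k V (z.1 * (N * Y - Y * N)) := by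
      have h3 : LinearMap.trace k V (N * z.1 * Y) = LinearMap.trace k V (z.1 * (Y * N)) := by
        rw [mul_assoc, LinearMap.trace_mul_comm, mul_assoc]
      rw [sub_mul, mul_sub, map_sub, map_sub, h3, mul_assoc]
    rw [h2]
    exact h1
  have h1 := hxz z.1 z.2 hzN
  have h2 := hzf ⟨x, hx⟩
  rw [hBapp, h1] at h2
  exact hfx h2.symm

/-- The coefficients of the lowering operator. -/
noncomputable def Fc (r : ℕ) (s : k) : k := s * (r + 1 - s) / 2

theorem Fc_zero (r : ℕ) : Fc (k := k) r 0 = 0 := by
  unfold Fc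
  ring

theorem Fc_top (r : ℕ) : Fc (k := k) r (r + 1) = 0 := by
  unfold Fc
  ring

/-- The principal triple, in the basis `N ^ j v`. -/
structure Triple (N H f : End k V) (r : ℕ) (v : V) : Prop where
  reg : Reg N r
  vec : (N ^ r) v ≠ 0
  wt : ∀ j : ℕ, H ((N ^ j) v) = ((j : k) - r / 2) • (N ^ j) v
  low0 : f v = 0
  low : ∀ j : ℕ, f ((N ^ (j + 1)) v) = Fc r ((j : k) + 1) • (N ^ j) v

variable {N H f : End k V} {r : ℕ} {v : V}

/-- Two endomorphisms which agree on the vectors `N ^ j v`. -/
theorem Reg.ext' (h : Reg N r) (hv : (N ^ r) v ≠ 0) {X Y : End k V}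
    (hXY : ∀ j : ℕ, X ((N ^ j) v) = Y ((N ^ j) v)) : X = Y := by
  refine (h.bas hv).ext fun j => ?_
  rw [h.bas_apply hv]
  exact hXY j

theorem Triple.HN (T : Triple N H f r v) : H * N - N * H = N := by
  refine T.reg.ext' T.vec fun j => ?_
  have h1 : ∀ j : ℕ, N ((N ^ j) v) = (N ^ (j + 1)) v := fun j => by
    rw [pow_succ', Module.End.mul_apply]
  rw [LinearMap.sub_apply, Module.End.mul_apply, Module.End.mul_apply, h1, T.wt, T.wt, map_smul, h1,
    ← sub_smul]
  push_cast
  rw [show (j : k) + 1 - r / 2 - (j - r / 2) = 1 by ring, one_smul]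

theorem Triple.Nf (T : Triple N H f r v) : N * f - f * N = H := by
  refine T.reg.ext' T.vec fun j => ?_
  have h1 : ∀ j : ℕ, N ((N ^ j) v) = (N ^ (j + 1)) v := fun j => by
    rw [pow_succ', Module.End.mul_apply]
  rw [LinearMap.sub_apply, Module.End.mul_apply, Module.End.mul_apply, h1, T.low, T.wt]
  rcases j with _ | j
  · rw [pow_zero, Module.End.one_apply, T.low0, map_zero, zero_sub, ← neg_smul]
    congr 1
    unfold Fc
    push_cast
    ring
  · rw [T.low, map_smul, h1, ← sub_smul]
    congr 1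
    unfold Fc
    push_cast
    ring

theorem Triple.Hf (T : Triple N H f r v) : H * f - f * H = -f := by
  refine T.reg.ext' T.vec fun j => ?_
  rw [LinearMap.sub_apply, Module.End.mul_apply, Module.End.mul_apply, T.wt, map_smul,
    LinearMap.neg_apply]
  rcases j with _ | j
  · rw [pow_zero, Module.End.one_apply, T.low0, map_zero, smul_zero, sub_zero, neg_zero]
  · rw [T.low, map_smul, T.wt, smul_smul, smul_smul, ← sub_smul, ← neg_smul]
    congr 1
    push_cast
    ring

section exist

variable (L : Submodule k (End k V)) (hbr : ∀ X ∈ L, ∀ Y ∈ L, X * Y - Y * X ∈ L)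
  (hirr : ∀ U : Submodule k V, (∀ X ∈ L, ∀ u ∈ U, X u ∈ U) → U = ⊥ ∨ U = ⊤)
  (htr : ∀ X ∈ L, LinearMap.trace k V X = 0)

theorem Reg.trace_pow (h : Reg N r) {i : ℕ} (hi : 0 < i) : LinearMap.trace k V (N ^ i) = 0 :=
  (LinearMap.isNilpotent_trace_of_isNilpotent (h.nil.pow_of_pos hi.ne')).eq_zero

include htr in
/-- The elements of `L` which commute with `N`. -/
theorem Reg.comm' (h : Reg N r) {z : End k V} (hz : z ∈ L) (hzN : z * N = N * z) :
    ∃ c : ℕ → k, c 0 = 0 ∧ z = ∑ i ∈ Finset.range (r + 1), c i • N ^ i := by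
  obtain ⟨c, hc⟩ := h.comm hzN
  refine ⟨c, ?_, hc⟩
  have h1 := htr z hz
  rw [hc, map_sum, Finset.sum_range_succ', Finset.sum_eq_zero, zero_add, map_smul, pow_zero,
    LinearMap.trace_one, h.dim, smul_eq_mul] at h1
  · have h2 : ((r + 1 : ℕ) : k) ≠ 0 := Nat.cast_ne_zero.2 (by omega)
    exact (mul_eq_zero.1 h1).resolve_right h2
  · intro i _
    rw [map_smul, h.trace_pow (Nat.succ_pos i), smul_zero]

include hbr hirr htr in
/-- The principal triple is contained in `L`. -/
theorem exists_triple (h : Reg N r) (hN : N ∈ L) :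
    ∃ (H f : End k V) (v : V), Triple N H f r v ∧ H ∈ L ∧ f ∈ L := by
  classical
  have hnd : ∀ X ∈ L, (∀ Y ∈ L, LinearMap.trace k V (X * Y) = 0) → X = 0 :=
    fun X hX hX' => rad_zero L hbr hirr htr h hN hX hX'
  obtain ⟨y, hyL, hy⟩ := exists_preimage L hbr hnd hN hN (fun z hz hzN => by
    obtain ⟨c, hc0, hc⟩ := h.comm' L htr hz hzN
    rw [hc, Finset.sum_mul, map_sum]
    refine Finset.sum_eq_zero fun i _ => ?_
    rw [smul_mul_assoc, ← _root_.pow_succ, map_smul, h.trace_pow (Nat.succ_pos i), smul_zero])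
  set H : End k V := -y with hH
  have hHL : H ∈ L := Submodule.neg_mem _ hyL
  have hHN : H * N - N * H = N := by
    rw [hH]
    calc -y * N - N * -y = N * y - y * N := by noncomm_ring
      _ = N := hy
  obtain ⟨v, c, hv, hHv⟩ := h.exists_adapted hHN
  have hcp := comm_pow hHN
  have hwt0 : ∀ j : ℕ, H ((N ^ j) v) = (c + j) • (N ^ j) v := by
    intro j
    have h1 := congrArg (fun T : End k V => T v) (hcp j)
    simp only [Module.End.mul_apply, LinearMap.add_apply, LinearMap.smul_apply] at h1
    rw [h1, hHv, map_smul, ← add_smul]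
  have hc : c = -(r / 2) := by
    have h1 := htr H hHL
    rw [LinearMap.trace_eq_matrix_trace k (h.bas hv), Matrix.trace] at h1
    have h2 : ∀ i : Fin (r + 1), (LinearMap.toMatrix (h.bas hv) (h.bas hv) H).diag i = c + (i : ℕ) := by
      intro i
      rw [Matrix.diag_apply, LinearMap.toMatrix_apply, h.bas_apply hv, hwt0, map_smul,
        ← h.bas_apply hv, Basis.repr_self, Finsupp.smul_apply, Finsupp.single_eq_same, smul_eq_mul,
        mul_one]
    rw [Finset.sum_congr rfl fun i _ => h2 i, Finset.sum_add_distrib, Finset.sum_const,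
      Finset.card_univ, Fintype.card_fin, ← Finset.sum_range (fun i => (i : k)), nsmul_eq_mul] at h1
    have h3 : (∑ i ∈ Finset.range (r + 1), (i : k)) * 2 = (r + 1) * r := by
      have h4 := Finset.sum_range_id_mul_two (r + 1)
      have h5 := congrArg (fun n : ℕ => (n : k)) h4
      push_cast at h5
      rw [h5]
    have h4 : ((r : k) + 1) ≠ 0 := by exact_mod_cast Nat.succ_ne_zero r
    have h5 : ((r : k) + 1) * (2 * c + r) = 0 := by
      push_cast at h1
      linear_combination 2 * h1 - h3
    have h6 := (mul_eq_zero.1 h5).resolve_left h4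
    linear_combination h6 / 2
  have hwt : ∀ j : ℕ, H ((N ^ j) v) = ((j : k) - r / 2) • (N ^ j) v := by
    intro j
    rw [hwt0, hc]
    congr 1
    ring
  -- the lowering operator
  let f : End k V := (h.bas hv).constr k (fun j => Fc r ((j : ℕ) : k) • (N ^ ((j : ℕ) - 1)) v)
  have hf : ∀ j : Fin (r + 1), f ((N ^ (j : ℕ)) v) = Fc r ((j : ℕ) : k) • (N ^ ((j : ℕ) - 1)) v := by
    intro j
    rw [← h.bas_apply hv]
    exact (h.bas hv).constr_basis k _ j
  have hT : Triple N H f r v := by
    refine ⟨h, hv, hwt, ?_, ?_⟩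
    · have h1 := hf ⟨0, by omega⟩
      simp only [pow_zero, Module.End.one_apply, Nat.cast_zero] at h1
      rw [h1, Fc_zero, zero_smul]
    · intro j
      by_cases hj : j + 1 < r + 1
      · have h1 := hf ⟨j + 1, hj⟩
        simp only [Nat.add_sub_cancel, Nat.cast_add, Nat.cast_one] at h1
        exact h1
      · have h1 : N ^ (j + 1) = 0 := h.pow_zero_of_lt (by omega)
        rw [h1, LinearMap.zero_apply, map_zero]
        rcases eq_or_lt_of_le (not_lt.1 hj) with h2 | h2
        · have h3 : (j : k) + 1 = r + 1 := by exact_mod_cast h2.symm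
          rw [h3, Fc_top, zero_smul]
        · have h3 : N ^ j = 0 := h.pow_zero_of_lt (by omega)
          rw [h3, LinearMap.zero_apply, smul_zero]
  refine ⟨H, f, v, hT, hHL, ?_⟩
  obtain ⟨y', hy'L, hy'⟩ := exists_preimage L hbr hnd hN hHL (fun z hz hzN => by
    obtain ⟨c, hc0, hc⟩ := h.comm' L htr hz hzN
    rw [hc, Finset.sum_mul, map_sum]
    refine Finset.sum_eq_zero fun i _ => ?_
    rw [smul_mul_assoc, map_smul]
    rcases i with _ | i
    · rw [hc0, zero_smul]
    · have h1 : LinearMap.trace k V (N ^ (i + 1) * H) = 0 := by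
        have h2 : ((i + 1 : ℕ) : k) • N ^ (i + 1) = H * N ^ (i + 1) - N ^ (i + 1) * H := by
          rw [hcp (i + 1), add_sub_cancel_left]
        have h3 : ((i + 1 : ℕ) : k) * LinearMap.trace k V (N ^ (i + 1) * H) = 0 := by
          rw [← smul_eq_mul, ← map_smul, ← smul_mul_assoc, h2, sub_mul, map_sub, mul_assoc,
            LinearMap.trace_mul_comm k H, sub_self]
        exact (mul_eq_zero.1 h3).resolve_left (Nat.cast_ne_zero.2 (by omega))
      rw [h1, smul_zero])
  have hcomm : (y' - f) * N = N * (y' - f) := by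
    have h1 := hT.Nf
    have h2 : N * y' - y' * N = N * f - f * N := by rw [hy', h1]
    have h3 : (y' - f) * N - N * (y' - f) = (N * f - f * N) - (N * y' - y' * N) := by noncomm_ring
    rw [h2, sub_self, sub_eq_zero] at h3
    exact h3
  obtain ⟨c', hc'⟩ := h.comm hcomm
  have hsum : y' = f + ∑ i ∈ Finset.range (r + 1), c' i • N ^ i := by
    rw [← hc']
    abel
  let x : ℕ → End k V := fun j => if j = 0 then f else c' (j - 1) • N ^ (j - 1)
  have hx := split_mem (LinearMap.mulLeft k H - LinearMap.mulRight k H) L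
    (fun z hz => hbr H hHL z hz) (Finset.range (r + 2)) (fun j => (j : k) - 1)
    (fun i _ j _ hij => by
      have : (i : k) = j := by linear_combination hij
      exact_mod_cast this) x (fun j _ => by
      change H * x j - x j * H = ((j : k) - 1) • x j
      rcases j with _ | j
      · change H * f - f * H = _
        rw [hT.Hf]
        simp [x]
      · have h1 : x (j + 1) = c' j • N ^ j := by simp [x]
        rw [h1, mul_smul_comm, hcp, smul_mul_assoc, smul_add, add_sub_cancel_left, smul_comm]
        push_cast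
        rw [add_sub_cancel_right]) (by
      rw [Finset.sum_range_succ']
      have h1 : ∑ i ∈ Finset.range (r + 1), x (i + 1) = ∑ i ∈ Finset.range (r + 1), c' i • N ^ i := by
        refine Finset.sum_congr rfl fun i _ => ?_
        simp [x]
      have h2 : x 0 = f := by simp [x]
      rw [h1, h2, add_comm, ← hsum]
      exact hy'L) 0 (Finset.mem_range.2 (by omega))
  simpa [x] using hx

end exist

end Pool.Agent.Y114.MU
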