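import Mathlib
import Pool.Agent.H86.CMLib.Y114.MU.JM

/-!
# Lie algebras of endomorphisms which contain a principal triple
-/

set_option autoImplicit false
set_option linter.unusedSectionVars false

namespace Pool.Agent.Y114.MU

open Module Pool.Agent.Y114.AP

variable {k : Type*} [Field k] [CharZero k] {V : Type*} [AddCommGroup V] [Module k V]
  [FiniteDimensional k V] {N H f : End k V} {r : ℕ} {v : V}

/-- The coefficients of the powers of the lowering operator. -/
noncomputable def Gc (r m : ℕ) (s : k) : k := ∏ i ∈ Finset.range m, Fc r (s + 1 + i)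

theorem Triple.N_apply (T : Triple N H f r v) (j : ℕ) : N ((N ^ j) v) = (N ^ (j + 1)) v := by
  rw [pow_succ', Module.End.mul_apply]

theorem Triple.N_pow (T : Triple N H f r v) (m j : ℕ) : (N ^ m) ((N ^ j) v) = (N ^ (j + m)) v := by
  rw [← Module.End.mul_apply, ← pow_add, add_comm]

theorem Triple.f_pow (T : Triple N H f r v) (m : ℕ) : ∀ j : ℕ,
    (f ^ m) ((N ^ (j + m)) v) = Gc r m (j : k) • (N ^ j) v := by
  induction m with
  | zero =>
    intro j
    simp [Gc]
  | succ m ih =>
    intro j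
    rw [pow_succ, Module.End.mul_apply, ← add_assoc, T.low, map_smul, ih, smul_smul]
    congr 1
    unfold Gc
    rw [Finset.prod_range_succ]
    push_cast
    ring_nf

theorem Triple.f_pow_lt (T : Triple N H f r v) {m j : ℕ} (hj : j < m) : (f ^ m) ((N ^ j) v) = 0 := by
  obtain ⟨c, rfl⟩ := Nat.exists_eq_add_of_lt hj
  have h1 := T.f_pow j 0
  rw [zero_add] at h1
  rw [show j + c + 1 = c + 1 + j by ring, pow_add, Module.End.mul_apply, h1, map_smul, pow_zero,
    Module.End.one_apply, pow_succ, Module.End.mul_apply, T.low0, map_zero, smul_zero]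

theorem Gc_pos {r m : ℕ} {j : ℕ} (hj : j + m ≤ r) : ∃ a : ℕ, 0 < a ∧
    (2 : k) ^ m * Gc r m (j : k) = a := by
  refine ⟨∏ i ∈ Finset.range m, ((j + 1 + i) * (r - (j + i))), ?_, ?_⟩
  · refine Finset.prod_pos fun i hi => ?_
    rw [Finset.mem_range] at hi
    exact Nat.mul_pos (by omega) (by omega)
  · unfold Gc
    have h2 : (2 : k) ^ m = ∏ _i ∈ Finset.range m, (2 : k) := by simp
    rw [h2, ← Finset.prod_mul_distrib]
    push_cast
    refine Finset.prod_congr rfl fun i hi => ?_
    rw [Finset.mem_range] at hi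
    rw [Nat.cast_sub (show j + i ≤ r by omega)]
    unfold Fc
    push_cast
    ring

theorem Gc_ne_zero {r m : ℕ} {j : ℕ} (hj : j + m ≤ r) : Gc (k := k) r m (j : k) ≠ 0 := by
  intro h0
  obtain ⟨a, ha, h1⟩ := Gc_pos (k := k) hj
  rw [h0, mul_zero] at h1
  exact (Nat.cast_ne_zero.2 ha.ne') h1.symm

theorem Gc_zero {r m : ℕ} {j : ℕ} (hj : r < j + m) (hjr : j ≤ r) : Gc (k := k) r m (j : k) = 0 := by
  unfold Gc
  refine Finset.prod_eq_zero (Finset.mem_range.2 (show r - j < m by omega)) ?_
  have h1 : (j : k) + 1 + ((r - j : ℕ) : k) = r + 1 := by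
    rw [Nat.cast_sub hjr]
    ring
  rw [h1, Fc_top]

/-- `f` is nilpotent with one Jordan block. -/
theorem Triple.reg_f (T : Triple N H f r v) : Reg f r := by
  refine ⟨T.reg.dim, ⟨r + 1, ?_⟩, ?_⟩
  · refine T.reg.ext' T.vec fun j => ?_
    rw [LinearMap.zero_apply]
    by_cases hj : j < r + 1
    · exact T.f_pow_lt hj
    · rw [T.reg.pow_zero_of_lt (show r < j by omega), LinearMap.zero_apply, map_zero]
  · intro h0
    have h1 := T.f_pow r 0
    rw [zero_add, h0, LinearMap.zero_apply, pow_zero, Module.End.one_apply] at h1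
    have h2 : Gc (k := k) r r ((0 : ℕ) : k) ≠ 0 := Gc_ne_zero (by omega)
    have h3 := (smul_eq_zero.1 h1.symm).resolve_left h2
    exact T.vec (by rw [h3, map_zero])

/-- The trace of an endomorphism which is diagonal in the basis `N ^ j v`. -/
theorem Triple.trace (T : Triple N H f r v) {X : End k V} {d : ℕ → k}
    (hX : ∀ j : ℕ, j ≤ r → X ((N ^ j) v) = d j • (N ^ j) v) :
    LinearMap.trace k V X = ∑ j ∈ Finset.range (r + 1), d j := by
  rw [LinearMap.trace_eq_matrix_trace k (T.reg.bas T.vec), Matrix.trace, Finset.sum_range]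
  refine Finset.sum_congr rfl fun i _ => ?_
  rw [Matrix.diag_apply, LinearMap.toMatrix_apply, T.reg.bas_apply T.vec, hX _ (by omega), map_smul,
    ← T.reg.bas_apply T.vec, Basis.repr_self, Finsupp.smul_apply, Finsupp.single_eq_same,
    smul_eq_mul, mul_one]

/-- The trace of `N ^ m f ^ m` is not zero. -/
theorem Triple.trace_pow_ne (T : Triple N H f r v) {m : ℕ} (hm : m ≤ r) :
    LinearMap.trace k V (f ^ m * N ^ m) ≠ 0 := by
  have h1 : LinearMap.trace k V (f ^ m * N ^ m) = ∑ j ∈ Finset.range (r + 1), Gc r m (j : k) := by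
    refine T.trace fun j _ => ?_
    rw [Module.End.mul_apply, T.N_pow, T.f_pow]
  rw [h1]
  have h2 : ∀ j ∈ Finset.range (r + 1), ∃ a : ℕ, (2 : k) ^ m * Gc r m (j : k) = a ∧
      (j = 0 → 0 < a) := by
    intro j hj
    rw [Finset.mem_range] at hj
    by_cases h3 : j + m ≤ r
    · obtain ⟨a, ha, h4⟩ := Gc_pos (k := k) h3
      exact ⟨a, h4, fun _ => ha⟩
    · refine ⟨0, ?_, fun h0 => ?_⟩
      · rw [Gc_zero (by omega) (by omega), mul_zero, Nat.cast_zero]
      · omega
  choose! a ha using h2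
  intro h0
  have h3 : (2 : k) ^ m * ∑ j ∈ Finset.range (r + 1), Gc r m (j : k) =
      ((∑ j ∈ Finset.range (r + 1), a j : ℕ) : k) := by
    rw [Finset.mul_sum, Nat.cast_sum]
    exact Finset.sum_congr rfl fun j hj => (ha j hj).1
  rw [h0, mul_zero] at h3
  have h4 : (∑ j ∈ Finset.range (r + 1), a j) = 0 := by exact_mod_cast h3.symm
  have h5 := (Finset.sum_eq_zero_iff.1 h4) 0 (Finset.mem_range.2 (by omega))
  exact ((ha 0 (Finset.mem_range.2 (by omega))).2 rfl).ne' h5

section dich

variable (L : Submodule k (End k V)) (hbr : ∀ X ∈ L, ∀ Y ∈ L, X * Y - Y * X ∈ L)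
  (hnd : ∀ X ∈ L, (∀ Y ∈ L, LinearMap.trace k V (X * Y) = 0) → X = 0)

include hbr hnd in
/-- The powers of a regular nilpotent element which is an eigenvector of an element of `L`: they
are in `L` or orthogonal to `L`. -/
theorem dich {P : End k V} (hP : Reg P r) (hPL : P ∈ L) {H : End k V} (hHL : H ∈ L) {ε : k}
    (hε : ε ≠ 0) (hHP : H * P - P * H = ε • P) (m : ℕ) :
    P ^ m ∈ L ∨ ∀ Y ∈ L, LinearMap.trace k V (P ^ m * Y) = 0 := by
  classical
  have hB : (TF.restrict L).Nondegenerate := by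
    have hs : (TF.restrict L).IsSymm := ⟨fun a b => by
      change LinearMap.trace k V (a.1 * b.1) = LinearMap.trace k V (b.1 * a.1)
      rw [LinearMap.trace_mul_comm]⟩
    refine (hs.isRefl.nondegenerate_iff_separatingLeft).2 ?_
    intro a ha
    exact Subtype.ext (hnd a.1 a.2 fun Y hY => ha ⟨Y, hY⟩)
  let φ : L →ₗ[k] k := (TF (P ^ m)).comp L.subtype
  set l : L := ((TF.restrict L).toDual hB).symm φ with hl
  have hlY : ∀ Y ∈ L, LinearMap.trace k V (l.1 * Y) = LinearMap.trace k V (P ^ m * Y) := by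
    intro Y hY
    have h0 : ∀ y, (TF.restrict L) l y = φ y := fun y =>
      LinearMap.BilinForm.apply_toDual_symm_apply ..
    exact h0 ⟨Y, hY⟩
  have hcomm : ∀ Q ∈ L, ∀ Y ∈ L, ∀ Z : End k V, LinearMap.trace k V ((Q * Z - Z * Q) * Y) =
      LinearMap.trace k V (Z * (Y * Q - Q * Y)) := by
    intro Q _ Y _ Z
    have h3 : LinearMap.trace k V (Q * Z * Y) = LinearMap.trace k V (Z * (Y * Q)) := by
      rw [mul_assoc, LinearMap.trace_mul_comm, mul_assoc]
    rw [sub_mul, mul_sub, map_sub, map_sub, h3, mul_assoc Z Q Y]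
  have hPP : ∀ m : ℕ, P * P ^ m = P ^ m * P := fun m => ((Commute.refl P).pow_right m).eq
  have hHPm : ∀ m : ℕ, H * P ^ m - P ^ m * H = ((m : k) * ε) • P ^ m := by
    intro m
    induction m with
    | zero => simp
    | succ m ih =>
      have h1 : H * P ^ (m + 1) - P ^ (m + 1) * H = (H * P ^ m - P ^ m * H) * P +
          P ^ m * (H * P - P * H) := by
        rw [pow_succ]
        noncomm_ring
      rw [h1, ih, hHP, smul_mul_assoc, mul_smul_comm, ← pow_succ, ← add_smul]
      congr 1
      push_cast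
      ring
  have h1 : P * l.1 - l.1 * P = 0 := by
    refine hnd _ (hbr _ hPL _ l.2) fun Y hY => ?_
    rw [hcomm P hPL Y hY, hlY _ (hbr Y hY P hPL), ← hcomm P hPL Y hY, hPP, sub_self, zero_mul,
      map_zero]
  have h2 : H * l.1 - l.1 * H - ((m : k) * ε) • l.1 = 0 := by
    refine hnd _ (Submodule.sub_mem _ (hbr _ hHL _ l.2) (Submodule.smul_mem _ _ l.2)) fun Y hY => ?_
    rw [sub_mul, map_sub, hcomm H hHL Y hY, hlY _ (hbr Y hY H hHL), ← hcomm H hHL Y hY, hHPm,
      smul_mul_assoc, smul_mul_assoc, map_smul, map_smul, hlY Y hY, sub_self]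
  obtain ⟨c, hc⟩ := hP.comm (X := l.1) (sub_eq_zero.1 h1).symm
  have h3 : ∑ i ∈ Finset.range (r + 1), (((i : k) - m) * ε * c i) • P ^ i ∈
      (⊥ : Submodule k (End k V)) := by
    rw [Submodule.mem_bot, ← h2, hc, Finset.mul_sum, Finset.sum_mul, Finset.smul_sum,
      ← Finset.sum_sub_distrib, ← Finset.sum_sub_distrib]
    refine Finset.sum_congr rfl fun i _ => ?_
    rw [mul_smul_comm, smul_mul_assoc, ← smul_sub, hHPm, smul_smul, smul_smul, ← sub_smul]
    congr 1
    ring
  have h4 := split_mem (LinearMap.mulLeft k H - LinearMap.mulRight k H)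
    (⊥ : Submodule k (End k V)) (fun z hz => by
      rw [Submodule.mem_bot] at hz ⊢
      rw [hz, map_zero]) (Finset.range (r + 1)) (fun j => (j : k) * ε)
    (fun i _ j _ hij => by
      have : (i : k) = j := mul_right_cancel₀ hε hij
      exact_mod_cast this) (fun i => (((i : k) - m) * ε * c i) • P ^ i) (fun i _ => by
      rw [map_smul]
      change _ • (H * P ^ i - P ^ i * H) = _
      rw [hHPm, smul_comm]) h3
  have h5 : ∀ i ∈ Finset.range (r + 1), i ≠ m → c i • P ^ i = 0 := by
    intro i hi him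
    have h6 := h4 i hi
    rw [Submodule.mem_bot, mul_smul] at h6
    refine (smul_eq_zero.1 h6).resolve_left (mul_ne_zero ?_ hε)
    rw [sub_ne_zero]
    exact_mod_cast him
  have h6 : l.1 = (if m < r + 1 then c m else 0) • P ^ m := by
    rw [hc]
    split_ifs with hm
    · exact Finset.sum_eq_single m (fun i hi him => h5 i hi him)
        fun hm' => absurd (Finset.mem_range.2 hm) hm'
    · rw [zero_smul]
      exact Finset.sum_eq_zero fun i hi => h5 i hi fun him => hm (him ▸ Finset.mem_range.1 hi)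
  by_cases h7 : (if m < r + 1 then c m else 0) = 0
  · right
    intro Y hY
    rw [← hlY Y hY, h6, h7, zero_smul, zero_mul, map_zero]
  · left
    have h8 := Submodule.smul_mem L (if m < r + 1 then c m else 0)⁻¹ l.2
    rwa [h6, smul_smul, inv_mul_cancel₀ h7, one_smul] at h8

end dich

end Pool.Agent.Y114.MU
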