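import Mathlib
import Pool.Agent.H86.CMLib.Y114.MU.Princ

/-!
# Lie algebras of endomorphisms which contain a principal triple: the cube
-/

set_option autoImplicit false
set_option linter.unusedSectionVars false
set_option linter.unusedVariables false

namespace Pool.Agent.Y114.MU

open Module Pool.Agent.Y114.AP

variable {k : Type*} [Field k] [CharZero k] {V : Type*} [AddCommGroup V] [Module k V]
  [FiniteDimensional k V] {N H f : End k V} {r : ℕ} {v : V}

variable (L : Submodule k (End k V)) (hbr : ∀ X ∈ L, ∀ Y ∈ L, X * Y - Y * X ∈ L)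
  (hnd : ∀ X ∈ L, (∀ Y ∈ L, LinearMap.trace k V (X * Y) = 0) → X = 0)
  (htr : ∀ X ∈ L, LinearMap.trace k V X = 0)

/-- Adjoint of a commutator for the trace form. -/
theorem tr_comm (A X Y : End k V) : LinearMap.trace k V ((A * X - X * A) * Y) =
    LinearMap.trace k V (X * (Y * A - A * Y)) := by
  have h3 : LinearMap.trace k V (A * X * Y) = LinearMap.trace k V (X * (Y * A)) := by
    rw [mul_assoc, LinearMap.trace_mul_comm, mul_assoc]
  rw [sub_mul, mul_sub, map_sub, map_sub, h3, mul_assoc X A Y]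

include htr hbr in
theorem three (T : Triple N H f r v) (hr : 0 < r) (hN : N ∈ L) (hH : H ∈ L) (hf : f ∈ L) :
    (∀ X ∈ L, ∃ a b c : k, X = a • N + b • H + c • f) ∨ ∃ m, 2 ≤ m ∧ m ≤ r ∧ N ^ m ∈ L := by
  classical
  have hNf : LinearMap.trace k V (N * f) ≠ 0 := by
    have h1 := T.trace_pow_ne (m := 1) hr
    rwa [pow_one, pow_one, LinearMap.trace_mul_comm] at h1
  set t := LinearMap.trace k V (N * f) with ht
  have hfN : LinearMap.trace k V (f * N) = t := by rw [LinearMap.trace_mul_comm]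
  have hHH : LinearMap.trace k V (H * H) = t := by
    have h2 : LinearMap.trace k V (H * (N * f - f * N)) = t := by
      rw [ht]
      conv_rhs => rw [← T.HN]
      rw [mul_sub, map_sub, sub_mul, map_sub, mul_assoc, mul_assoc,
        LinearMap.trace_mul_comm k N (H * f), mul_assoc]
    rwa [T.Nf] at h2
  have hNH : LinearMap.trace k V (N * H) = 0 := by
    conv_lhs => rw [← T.HN]
    rw [tr_comm, sub_self, mul_zero, map_zero]
  have hfH : LinearMap.trace k V (f * H) = 0 := by
    have h1 : LinearMap.trace k V (-f * H) = 0 := by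
      conv_lhs => rw [← T.Hf]
      rw [tr_comm, sub_self, mul_zero, map_zero]
    rwa [neg_mul, map_neg, neg_eq_zero] at h1
  have hHN : LinearMap.trace k V (H * N) = 0 := by rw [LinearMap.trace_mul_comm, hNH]
  have hHf : LinearMap.trace k V (H * f) = 0 := by rw [LinearMap.trace_mul_comm, hfH]
  have hNN : LinearMap.trace k V (N * N) = 0 := by
    have h1 := T.reg.trace_pow (i := 2) (by norm_num)
    rwa [pow_two] at h1
  have hff : LinearMap.trace k V (f * f) = 0 := by
    have h1 := T.reg_f.trace_pow (i := 2) (by norm_num)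
    rwa [pow_two] at h1
  by_cases hall : ∀ X ∈ L, LinearMap.trace k V (X * N) = 0 → LinearMap.trace k V (X * H) = 0 →
      LinearMap.trace k V (X * f) = 0 → X = 0
  · left
    intro X hX
    refine ⟨LinearMap.trace k V (X * f) / t, LinearMap.trace k V (X * H) / t,
      LinearMap.trace k V (X * N) / t, ?_⟩
    rw [← sub_eq_zero]
    refine hall _ (Submodule.sub_mem _ hX (Submodule.add_mem _ (Submodule.add_mem _
      (Submodule.smul_mem _ _ hN) (Submodule.smul_mem _ _ hH)) (Submodule.smul_mem _ _ hf))) ?_ ?_ ?_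
    · simp only [sub_mul, add_mul, smul_mul_assoc, map_sub, map_add, map_smul, hNN, hHN, hfN,
        smul_eq_mul, mul_zero, zero_add, div_mul_cancel₀ _ hNf, sub_self]
    · simp only [sub_mul, add_mul, smul_mul_assoc, map_sub, map_add, map_smul, hNH, hHH, hfH,
        smul_eq_mul, mul_zero, zero_add, add_zero, div_mul_cancel₀ _ hNf, sub_self]
    · simp only [sub_mul, add_mul, smul_mul_assoc, map_sub, map_add, map_smul, ← ht, hHf, hff,
        smul_eq_mul, mul_zero, zero_add, add_zero, div_mul_cancel₀ _ hNf, sub_self]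
  · right
    push Not at hall
    obtain ⟨X, hX, hX1, hX2, hX3, hX0⟩ := hall
    let A : End k V →ₗ[k] End k V := LinearMap.mulLeft k N - LinearMap.mulRight k N
    have hA : ∀ Y, A Y = N * Y - Y * N := fun Y => rfl
    have hAn : IsNilpotent A := by
      refine Commute.isNilpotent_sub ?_ ?_ ?_
      · exact LinearMap.commute_mulLeft_right ..
      · exact (LinearMap.isNilpotent_mulLeft_iff k N).2 T.reg.nil
      · exact (LinearMap.isNilpotent_mulRight_iff k N).2 T.reg.nil
    have hM : ∀ j : ℕ, (A ^ j) X ∈ L ∧ LinearMap.trace k V ((A ^ j) X * N) = 0 ∧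
        LinearMap.trace k V ((A ^ j) X * H) = 0 ∧ LinearMap.trace k V ((A ^ j) X * f) = 0 := by
      intro j
      induction j with
      | zero => exact ⟨hX, hX1, hX2, hX3⟩
      | succ j ih =>
        obtain ⟨i1, i2, i3, i4⟩ := ih
        rw [pow_succ', Module.End.mul_apply, hA]
        refine ⟨hbr _ hN _ i1, ?_, ?_, ?_⟩
        · rw [tr_comm, sub_self, mul_zero, map_zero]
        · rw [tr_comm, T.HN, i2]
        · rw [tr_comm, show f * N - N * f = -H by rw [← T.Nf]; abel, mul_neg, map_neg, i3, neg_zero]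
    have hex : ∃ j, (A ^ j) X = 0 := by
      obtain ⟨j, hj⟩ := hAn
      exact ⟨j, by rw [hj, LinearMap.zero_apply]⟩
    have hj0 : Nat.find hex ≠ 0 := by
      intro h0
      have h1 := Nat.find_spec hex
      rw [h0, pow_zero, Module.End.one_apply] at h1
      exact hX0 h1
    obtain ⟨j, hj⟩ := Nat.exists_eq_succ_of_ne_zero hj0
    set z := (A ^ j) X with hz
    have hz0 : z ≠ 0 := fun h0 => Nat.find_min hex (show j < Nat.find hex by omega) h0
    have hzN : z * N = N * z := by
      have h1 := Nat.find_spec hex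
      rw [hj, Nat.succ_eq_add_one, pow_succ', Module.End.mul_apply, hA, sub_eq_zero] at h1
      exact h1.symm
    obtain ⟨z1, z2, z3, z4⟩ := hM j
    rw [← hz] at z1 z2 z3 z4
    obtain ⟨c, hc0, hc⟩ := T.reg.comm' L htr z1 hzN
    have hcL : ∀ i ∈ Finset.range (r + 1), c i • N ^ i ∈ L := by
      refine split_mem (LinearMap.mulLeft k H - LinearMap.mulRight k H) L
        (fun z hz => hbr H hH z hz) (Finset.range (r + 1)) (fun j => (j : k))
        (fun i _ j _ hij => by exact_mod_cast hij) (fun i => c i • N ^ i) (fun i _ => ?_) ?_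
      · change H * (c i • N ^ i) - (c i • N ^ i) * H = _
        rw [mul_smul_comm, comm_pow T.HN, smul_mul_assoc, smul_add, add_sub_cancel_left, smul_comm]
      · rw [← hc]
        exact z1
    by_contra hcon
    push Not at hcon
    have h1 : ∀ i ∈ Finset.range (r + 1), i ≠ 1 → c i • N ^ i = 0 := by
      intro i hi hi1
      rw [Finset.mem_range] at hi
      rcases Nat.eq_zero_or_pos i with rfl | hi0
      · rw [hc0, zero_smul]
      · by_contra hne
        have hci : c i ≠ 0 := fun h0 => hne (by rw [h0, zero_smul])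
        refine hcon i (by omega) (by omega) ?_
        have h2 := Submodule.smul_mem L (c i)⁻¹ (hcL i (Finset.mem_range.2 hi))
        rwa [smul_smul, inv_mul_cancel₀ hci, one_smul] at h2
    have h2 : z = c 1 • N := by
      rw [hc, Finset.sum_eq_single 1 (fun i hi hi1 => h1 i hi hi1)
        (fun h => absurd (Finset.mem_range.2 (by omega)) h), pow_one]
    rw [h2, smul_mul_assoc, map_smul, ← ht, smul_eq_mul, mul_eq_zero] at z4
    exact hz0 (by rw [h2, z4.resolve_right hNf, zero_smul])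

include hbr hnd in
theorem f_pow_mem (T : Triple N H f r v) (hN : N ∈ L) (hH : H ∈ L) (hf : f ∈ L) {m : ℕ}
    (hm : m ≤ r) (hNm : N ^ m ∈ L) : f ^ m ∈ L := by
  rcases dich L hbr hnd T.reg_f hf hH (ε := -1) (by norm_num) (by rw [T.Hf, neg_one_smul]) m with
    h1 | h1
  · exact h1
  · exact absurd (h1 _ hNm) (T.trace_pow_ne hm)

/-- The commutator with the lowering operator, in the basis `N ^ j v`. -/
theorem Triple.adf (T : Triple N H f r v) {Z : End k V} {m : ℕ} {z : k → k}
    (hZ : ∀ s : ℕ, Z ((N ^ s) v) = z (s : k) • (N ^ (s + (m + 1))) v) (s : ℕ) :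
    (f * Z - Z * f) ((N ^ s) v) =
      (z (s : k) * Fc r ((s : k) + m + 1) - Fc r (s : k) * z ((s : k) - 1)) • (N ^ (s + m)) v := by
  rw [LinearMap.sub_apply, Module.End.mul_apply, Module.End.mul_apply, hZ, map_smul,
    ← add_assoc, T.low]
  rcases s with _ | s
  · rw [pow_zero, Module.End.one_apply, T.low0, map_zero, sub_zero, smul_smul]
    congr 1
    push_cast
    rw [Fc_zero]
    ring_nf
  · rw [T.low, map_smul, hZ, smul_smul, smul_smul, ← add_assoc, show s + 1 + m = s + m + 1 by ring,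
      ← sub_smul]
    congr 1
    push_cast
    ring_nf

/-- The diagonal coefficients of `(ad f) ^ 3 (N ^ 3)`. -/
noncomputable def xc (r : ℕ) (s : k) : k :=
  -(3 / 4) * (s - r / 2) * (20 * (s - r / 2) ^ 2 - 3 * (r + 1) ^ 2 + 7)

/-- The element `(ad f) ^ 3 (N ^ 3)`. -/
def X3 (N f : End k V) : End k V :=
  f * (f * (f * N ^ 3 - N ^ 3 * f) - (f * N ^ 3 - N ^ 3 * f) * f) -
    (f * (f * N ^ 3 - N ^ 3 * f) - (f * N ^ 3 - N ^ 3 * f) * f) * f

theorem Triple.X3_apply (T : Triple N H f r v) (s : ℕ) :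
    X3 N f ((N ^ s) v) = xc r (s : k) • (N ^ s) v := by
  have h0 : ∀ s : ℕ, (N ^ 3) ((N ^ s) v) = (fun _ : k => (1 : k)) (s : k) • (N ^ (s + (2 + 1))) v := by
    intro s
    rw [T.N_pow]
    simp
  let z1 : k → k := fun s => 1 * Fc r (s + ((2 : ℕ) : k) + 1) - Fc r s * 1
  have h1 : ∀ s : ℕ, (f * N ^ 3 - N ^ 3 * f) ((N ^ s) v) = z1 (s : k) • (N ^ (s + (1 + 1))) v :=
    fun s => T.adf (Z := N ^ 3) (m := 2) (z := fun _ => 1) h0 s
  let z2 : k → k := fun s => z1 s * Fc r (s + ((1 : ℕ) : k) + 1) - Fc r s * z1 (s - 1)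
  have h2 : ∀ s : ℕ, (f * (f * N ^ 3 - N ^ 3 * f) - (f * N ^ 3 - N ^ 3 * f) * f) ((N ^ s) v) =
      z2 (s : k) • (N ^ (s + (0 + 1))) v :=
    fun s => T.adf (m := 1) (z := z1) h1 s
  have h3 := T.adf (m := 0) (z := z2) h2 s
  rw [add_zero] at h3
  unfold X3
  rw [h3]
  congr 1
  simp only [z1, z2]
  unfold xc Fc
  push_cast
  ring

/-- The sum which decides whether the cube is orthogonal to the Lie algebra. -/
theorem cube_sum {r m : ℕ} (hodd : Odd r) (hm2 : 2 ≤ m) (hmr : m ≤ r)
    (hne : ∑ j ∈ Finset.range (r + 1), Gc (k := k) r m (j : k) ≠ 0) :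
    ∑ j ∈ Finset.range (r + 1), Gc (k := k) r m (j : k) * (xc r ((j : k) + m) - xc r (j : k)) ≠ 0 := by
  intro h0
  have hstep : ∀ i : k, Fc r (i + 1) * Gc r m (i + 1) = Fc r (i + 1 + m) * Gc r m i := by
    intro i
    have h1 : Gc r (m + 1) i = Fc r (i + 1) * Gc r m (i + 1) := by
      unfold Gc
      rw [Finset.prod_range_succ', mul_comm]
      congr 1
      · push_cast
        ring_nf
      · refine Finset.prod_congr rfl fun j _ => ?_
        push_cast
        ring_nf
    have h2 : Gc r (m + 1) i = Fc r (i + 1 + m) * Gc r m i := by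
      unfold Gc
      rw [Finset.prod_range_succ, mul_comm]
    rw [← h1, h2]
  let P : ℕ → k := fun i => 2 * (Fc r (i : k) * Gc r m (i : k)) * (2 * i - 1 - ((r : k) - m))
  have htel := Finset.sum_range_sub P (r + 1)
  have hP0 : P 0 = 0 := by
    simp only [P, Nat.cast_zero, Fc_zero, zero_mul, mul_zero]
  have hPr : P (r + 1) = 0 := by
    simp only [P, Nat.cast_add, Nat.cast_one, Fc_top, zero_mul, mul_zero]
  rw [hP0, hPr, sub_zero] at htel
  have hdiff : ∀ i ∈ Finset.range (r + 1), P (i + 1) - P i = Gc r m (i : k) *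
      (2 * (((r : k) - m) / 2) * (((r : k) - m) / 2 + m + 1) -
        2 * (1 + 2 * ((m : k) + 1)) * ((i : k) + m / 2 - r / 2) ^ 2) := by
    intro i _
    simp only [P, Nat.cast_add, Nat.cast_one]
    rw [hstep]
    unfold Fc
    ring
  rw [Finset.sum_congr rfl hdiff] at htel
  have h1 : ∀ i ∈ Finset.range (r + 1), Gc r m (i : k) * (xc r ((i : k) + m) - xc r (i : k)) =
      -(3 / 4) * m * (Gc r m (i : k) * (60 * ((i : k) + m / 2 - r / 2) ^ 2 + 5 * m ^ 2 -
        3 * (r + 1) ^ 2 + 7)) := by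
    intro i _
    unfold xc
    ring
  rw [Finset.sum_congr rfl h1, ← Finset.mul_sum] at h0
  have hm0 : -(3 / 4) * (m : k) ≠ 0 := by
    refine mul_ne_zero (by norm_num) (Nat.cast_ne_zero.2 (by omega))
  have h2 := (mul_eq_zero.1 h0).resolve_left hm0
  set S0 := ∑ j ∈ Finset.range (r + 1), Gc (k := k) r m (j : k) with hS0
  set S2 := ∑ j ∈ Finset.range (r + 1), Gc (k := k) r m (j : k) * ((j : k) + m / 2 - r / 2) ^ 2
    with hS2
  have h3 : ∑ i ∈ Finset.range (r + 1), Gc r m (i : k) * (60 * ((i : k) + m / 2 - r / 2) ^ 2 +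
      5 * m ^ 2 - 3 * (r + 1) ^ 2 + 7) = 60 * S2 + (5 * m ^ 2 - 3 * (r + 1) ^ 2 + 7) * S0 := by
    rw [hS0, hS2, Finset.mul_sum, Finset.mul_sum, ← Finset.sum_add_distrib]
    refine Finset.sum_congr rfl fun i _ => ?_
    ring
  have h4 : ∑ i ∈ Finset.range (r + 1), Gc r m (i : k) *
      (2 * (((r : k) - m) / 2) * (((r : k) - m) / 2 + m + 1) -
        2 * (1 + 2 * ((m : k) + 1)) * ((i : k) + m / 2 - r / 2) ^ 2) =
      (2 * (((r : k) - m) / 2) * (((r : k) - m) / 2 + m + 1)) * S0 -
        2 * (1 + 2 * ((m : k) + 1)) * S2 := by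
    rw [hS0, hS2, Finset.mul_sum, Finset.mul_sum, ← Finset.sum_sub_distrib]
    refine Finset.sum_congr rfl fun i _ => ?_
    ring
  rw [h3] at h2
  rw [h4] at htel
  have h5 : (-2 * ((m : k) - 1) * (3 * ((r : k) + 1) ^ 2 + 3 - 5 * m * (m + 1))) * S0 = 0 := by
    linear_combination 30 * htel + (2 * (m : k) + 3) * h2
  have h6 := (mul_eq_zero.1 h5).resolve_right hne
  obtain ⟨a, rfl⟩ := Nat.exists_eq_add_of_le hm2
  have h7 : (-2 * (((2 + a : ℕ) : k) - 1)) ≠ 0 := by
    have h8 : (((2 + a : ℕ) : k) - 1) = ((a + 1 : ℕ) : k) := by push_cast; ring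
    rw [h8]
    exact mul_ne_zero (by norm_num) (Nat.cast_ne_zero.2 (by omega))
  have h8 := (mul_eq_zero.1 h6).resolve_left h7
  have h9 : ((3 * (r + 1) ^ 2 + 3 : ℕ) : k) = ((5 * ((2 + a) * (2 + a + 1)) : ℕ) : k) := by
    push_cast at h8 ⊢
    linear_combination h8
  have h10 : 3 * (r + 1) ^ 2 + 3 = 5 * ((2 + a) * (2 + a + 1)) := by exact_mod_cast h9
  have h11 : Even (5 * ((2 + a) * (2 + a + 1))) := (Nat.even_mul_succ_self (2 + a)).mul_left 5
  have h12 : Odd (3 * (r + 1) ^ 2 + 3) := by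
    have h13 : Even ((r + 1) ^ 2) := (hodd.add_one).pow_of_ne_zero (by norm_num)
    exact (h13.mul_left 3).add_odd (by decide)
  rw [h10] at h12
  exact (Nat.not_even_iff_odd.2 h12) h11

include hbr hnd in
/-- The cube of the nilpotent element. -/
theorem cube_mem (T : Triple N H f r v) (hodd : Odd r) (hN : N ∈ L) (hH : H ∈ L) (hf : f ∈ L)
    {m : ℕ} (hm2 : 2 ≤ m) (hmr : m ≤ r) (hNm : N ^ m ∈ L) : N ^ 3 ∈ L := by
  rcases dich L hbr hnd T.reg hN hH (ε := 1) (by norm_num) (by rw [T.HN, one_smul]) 3 with h1 | h1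
  · exact h1
  exfalso
  have hstep : ∀ Z : End k V, (∀ Y ∈ L, LinearMap.trace k V (Z * Y) = 0) →
      ∀ Y ∈ L, LinearMap.trace k V ((f * Z - Z * f) * Y) = 0 := by
    intro Z hZ Y hY
    rw [tr_comm]
    exact hZ _ (hbr _ hY _ hf)
  have h2 := hstep _ (hstep _ (hstep _ h1))
  have h3 := h2 _ (hbr _ hNm _ (f_pow_mem L hbr hnd T hN hH hf hmr hNm))
  change LinearMap.trace k V (X3 N f * (N ^ m * f ^ m - f ^ m * N ^ m)) = 0 at h3
  have h4 : LinearMap.trace k V (f ^ m * N ^ m) = ∑ j ∈ Finset.range (r + 1), Gc r m (j : k) := by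
    refine T.trace fun j _ => ?_
    rw [Module.End.mul_apply, T.N_pow, T.f_pow]
  have h5 := T.trace_pow_ne hmr
  rw [h4] at h5
  refine cube_sum hodd hm2 hmr h5 ?_
  rw [← h3, mul_sub, map_sub]
  have h6 : LinearMap.trace k V (X3 N f * (N ^ m * f ^ m)) =
      ∑ j ∈ Finset.range (r + 1), Gc r m (j : k) * xc r ((j : k) + m) := by
    rw [← mul_assoc, LinearMap.trace_mul_comm]
    refine T.trace fun j _ => ?_
    rw [Module.End.mul_apply, Module.End.mul_apply, T.N_pow, T.X3_apply, map_smul, T.f_pow,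
      smul_smul, mul_comm]
    push_cast
    rfl
  have h7 : LinearMap.trace k V (X3 N f * (f ^ m * N ^ m)) =
      ∑ j ∈ Finset.range (r + 1), Gc r m (j : k) * xc r (j : k) := by
    refine T.trace fun j _ => ?_
    rw [Module.End.mul_apply, Module.End.mul_apply, T.N_pow, T.f_pow, map_smul, T.X3_apply,
      smul_smul]
  rw [h6, h7, ← Finset.sum_sub_distrib]
  refine Finset.sum_congr rfl fun j _ => ?_
  ring

end Pool.Agent.Y114.MU
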