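import Mathlib
import Pool.Agent.H86.CMLib.Y114.MU.Torus

/-!
# The normalizer of a principal triple: the eigenvalues of its elements
-/

set_option autoImplicit false
set_option linter.unusedSectionVars false
set_option linter.unusedVariables false

namespace Pool.Agent.Y114.MU

open Module Pool.Agent.Y114.AP
open scoped TensorProduct

variable {k : Type*} [Field k] [CharZero k] {V : Type*} [AddCommGroup V] [Module k V]
  [FiniteDimensional k V] {N H f : End k V} {r : ℕ} {v : V}

theorem nil_of_comm {x y : End k V} (h : x * y - y * x = y) : IsNilpotent y := by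
  by_contra hcon
  have hne : ∀ m : ℕ, y ^ m ≠ 0 := fun m hm => hcon ⟨m, hm⟩
  let A : End k V →ₗ[k] End k V := LinearMap.mulLeft k x - LinearMap.mulRight k x
  have hA : ∀ m : ℕ, A (y ^ m) = (m : k) • y ^ m := by
    intro m
    change x * y ^ m - y ^ m * x = _
    rw [comm_pow h, add_sub_cancel_left]
  have hfin := Module.End.finite_hasEigenvalue (f := A)
  have hinj : Function.Injective (fun m : ℕ => (m : k)) := Nat.cast_injective
  exact Set.infinite_of_injective_forall_mem hinj (fun m => by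
    change Module.End.HasEigenvalue A (m : k)
    exact Module.End.hasEigenvalue_of_hasEigenvector (x := y ^ m)
      ⟨Module.End.mem_eigenspace_iff.2 (hA m), hne m⟩) hfin

/-- The lower part of the flag of `f`. -/
theorem Triple.lead (T : Triple N H f r v) (α β γ : k) (j : ℕ) :
    ∃ s ∈ Submodule.span k {x | ∃ i : ℕ, i < j ∧ x = (N ^ i) v},
      ((α • N + β • H + γ • f) ^ j) v = α ^ j • (N ^ j) v + s := by
  induction j with
  | zero => exact ⟨0, Submodule.zero_mem _, by simp⟩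
  | succ j ih =>
    obtain ⟨s, hs, h1⟩ := ih
    have hmono : Submodule.span k {x | ∃ i : ℕ, i < j ∧ x = (N ^ i) v} ≤
        Submodule.span k {x | ∃ i : ℕ, i < j + 1 ∧ x = (N ^ i) v} :=
      Submodule.span_mono fun x ⟨i, hi, hx⟩ => ⟨i, by omega, hx⟩
    have hN : ∀ u ∈ Submodule.span k {x | ∃ i : ℕ, i < j ∧ x = (N ^ i) v},
        N u ∈ Submodule.span k {x | ∃ i : ℕ, i < j + 1 ∧ x = (N ^ i) v} := by
      intro u hu
      induction hu using Submodule.span_induction with
      | mem u hu =>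
        obtain ⟨i, hi, rfl⟩ := hu
        rw [T.N_apply]
        exact Submodule.subset_span ⟨i + 1, by omega, rfl⟩
      | zero => rw [map_zero]; exact Submodule.zero_mem _
      | add a b _ _ ha hb => rw [map_add]; exact Submodule.add_mem _ ha hb
      | smul c a _ ha => rw [map_smul]; exact Submodule.smul_mem _ _ ha
    have hH : ∀ u ∈ Submodule.span k {x | ∃ i : ℕ, i < j + 1 ∧ x = (N ^ i) v},
        (β • H + γ • f) u ∈ Submodule.span k {x | ∃ i : ℕ, i < j + 1 ∧ x = (N ^ i) v} := by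
      intro u hu
      induction hu using Submodule.span_induction with
      | mem u hu =>
        obtain ⟨i, hi, rfl⟩ := hu
        rw [LinearMap.add_apply, LinearMap.smul_apply, LinearMap.smul_apply, T.wt]
        refine Submodule.add_mem _ (Submodule.smul_mem _ _ (Submodule.smul_mem _ _
          (Submodule.subset_span ⟨i, hi, rfl⟩))) (Submodule.smul_mem _ _ ?_)
        rcases i with _ | i
        · rw [pow_zero, Module.End.one_apply, T.low0]
          exact Submodule.zero_mem _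
        · rw [T.low]
          exact Submodule.smul_mem _ _ (Submodule.subset_span ⟨i, by omega, rfl⟩)
      | zero => rw [map_zero]; exact Submodule.zero_mem _
      | add a b _ _ ha hb => rw [map_add]; exact Submodule.add_mem _ ha hb
      | smul c a _ ha => rw [map_smul]; exact Submodule.smul_mem _ _ ha
    refine ⟨(β • H + γ • f) (α ^ j • (N ^ j) v) + (α • N s + (β • H + γ • f) s), ?_, ?_⟩
    · refine Submodule.add_mem _ (hH _ (Submodule.smul_mem _ _
        (Submodule.subset_span ⟨j, by omega, rfl⟩))) (Submodule.add_mem _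
        (Submodule.smul_mem _ _ (hN s hs)) (hH _ (hmono hs)))
    · rw [pow_succ', Module.End.mul_apply, h1, map_add]
      simp only [LinearMap.add_apply, LinearMap.smul_apply, map_smul, T.N_apply, smul_add,
        pow_succ, mul_smul]
      abel

theorem Triple.span_low (T : Triple N H f r v) {j : ℕ} {s : V}
    (hs : s ∈ Submodule.span k {x | ∃ i : ℕ, i < j ∧ x = (N ^ i) v}) : (f ^ j) s = 0 := by
  induction hs using Submodule.span_induction with
  | mem u hu =>
    obtain ⟨i, hi, rfl⟩ := hu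
    exact T.f_pow_lt hi
  | zero => rw [map_zero]
  | add a b _ _ ha hb => rw [map_add, ha, hb, add_zero]
  | smul c a _ ha => rw [map_smul, ha, smul_zero]

/-- The isotropic elements are nilpotent with one Jordan block. -/
theorem Triple.isotropic (T : Triple N H f r v) {α β γ : k} (hq : β ^ 2 + 2 * α * γ = 0)
    (hne : ¬ (α = 0 ∧ β = 0 ∧ γ = 0)) : Reg (α • N + β • H + γ • f) r := by
  by_cases hα : α = 0
  · subst hα
    have hβ : β = 0 := by
      have h1 : β ^ 2 = 0 := by linear_combination hq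
      exact pow_eq_zero_iff (two_ne_zero) |>.1 h1
    subst hβ
    have hγ : γ ≠ 0 := fun h => hne ⟨rfl, rfl, h⟩
    rw [zero_smul, zero_smul, zero_add, zero_add]
    refine ⟨T.reg.dim, T.reg_f.nil.smul γ, ?_⟩
    rw [smul_pow]
    exact smul_ne_zero (pow_ne_zero _ hγ) T.reg_f.ne
  · refine ⟨T.reg.dim, ?_, ?_⟩
    · refine nil_of_comm (x := H - (β / α) • f) ?_
      have h1 := T.HN
      have h2 := T.Nf
      have h3 := T.Hf
      have h4 : (H - (β / α) • f) * (α • N + β • H + γ • f) -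
          (α • N + β • H + γ • f) * (H - (β / α) • f) =
          α • (H * N - N * H) + γ • (H * f - f * H) + (β / α * α) • (N * f - f * N) +
            (β / α * β) • (H * f - f * H) := by
        simp only [sub_mul, mul_sub, add_mul, mul_add, smul_mul_assoc, mul_smul_comm, smul_sub,
          smul_add, smul_smul]
        have e1 : β * (β / α) = β / α * β := mul_comm _ _
        have e2 : γ * (β / α) = β / α * γ := mul_comm _ _
        have e3 : α * (β / α) = β / α * α := mul_comm _ _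
        simp only [e1, e2, e3]
        abel
      rw [h4, h1, h2, h3, div_mul_cancel₀ _ hα, smul_neg, smul_neg]
      have h5 : γ = -(β ^ 2 / (2 * α)) := by
        field_simp
        linear_combination hq
      have h6 : β / α * β = -(2 * γ) := by
        rw [h5]
        field_simp
      rw [h6]
      module
    · intro h0
      obtain ⟨s, hs, h1⟩ := T.lead α β γ r
      rw [h0, LinearMap.zero_apply] at h1
      have h2 := congrArg (f ^ r) h1
      have h3 := T.f_pow r 0
      rw [zero_add] at h3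
      rw [map_zero, map_add, T.span_low hs, add_zero, map_smul, h3, pow_zero, Module.End.one_apply,
        smul_smul] at h2
      have h4 : Gc (k := k) r r ((0 : ℕ) : k) ≠ 0 := Gc_ne_zero (by omega)
      have h5 := (smul_eq_zero.1 h2.symm).resolve_left (mul_ne_zero (pow_ne_zero _ hα) h4)
      exact T.vec (by rw [h5, map_zero])

/-- The values of the trace form. -/
theorem Triple.traces (T : Triple N H f r v) (hr : 0 < r) : ∃ t : k, t ≠ 0 ∧ ∀ a b c a' b' c' : k,
    LinearMap.trace k V ((a • N + b • H + c • f) * (a' • N + b' • H + c' • f)) =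
      t * (b * b' + a * c' + c * a') := by
  have hNf : LinearMap.trace k V (N * f) ≠ 0 := by
    have h1 := T.trace_pow_ne (m := 1) hr
    rwa [pow_one, pow_one, LinearMap.trace_mul_comm] at h1
  set t := LinearMap.trace k V (N * f) with ht
  have hfN : LinearMap.trace k V (f * N) = t := by rw [LinearMap.trace_mul_comm]
  have hHH : LinearMap.trace k V (H * H) = t := by
    have h2 : LinearMap.trace k V (H * (N * f - f * N)) = t := by
      rw [ht]
      conv_rhs => rw [← T.HN]
      rw [mul_sub, map_sub, sub_mul, map_sub, mul_assoc, mul_assoc,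
        LinearMap.trace_mul_comm k N (H * f), mul_assoc]
    rwa [T.Nf] at h2
  have hNH : LinearMap.trace k V (N * H) = 0 := by
    conv_lhs => rw [← T.HN]
    rw [tr_comm, sub_self, mul_zero, map_zero]
  have hfH : LinearMap.trace k V (f * H) = 0 := by
    have h1 : LinearMap.trace k V (-f * H) = 0 := by
      conv_lhs => rw [← T.Hf]
      rw [tr_comm, sub_self, mul_zero, map_zero]
    rwa [neg_mul, map_neg, neg_eq_zero] at h1
  have hHN : LinearMap.trace k V (H * N) = 0 := by rw [LinearMap.trace_mul_comm, hNH]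
  have hHf : LinearMap.trace k V (H * f) = 0 := by rw [LinearMap.trace_mul_comm, hfH]
  have hNN : LinearMap.trace k V (N * N) = 0 := by
    have h1 := T.reg.trace_pow (i := 2) (by norm_num)
    rwa [pow_two] at h1
  have hff : LinearMap.trace k V (f * f) = 0 := by
    have h1 := T.reg_f.trace_pow (i := 2) (by norm_num)
    rwa [pow_two] at h1
  refine ⟨t, hNf, fun a b c a' b' c' => ?_⟩
  simp only [add_mul, mul_add, smul_mul_assoc, mul_smul_comm, map_add, map_smul, hNN, hNH, hHN, hHH,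
    hHf, hfH, hff, hfN, ← ht, smul_eq_mul]
  ring

section quad

variable {K : Type*} [Field K] [CharZero K]

/-- Isotropic orthogonal vectors of the quadratic space are proportional. -/
theorem prop_of_orth {a b c a' b' c' : K} (h : b * b + a * c + c * a = 0)
    (h' : b' * b' + a' * c' + c' * a' = 0) (h0 : b * b' + a * c' + c * a' = 0)
    (hne : ¬ (a = 0 ∧ b = 0 ∧ c = 0)) : ∃ μ : K, a' = μ * a ∧ b' = μ * b ∧ c' = μ * c := by
  have e1 : a * b' - b * a' = 0 := by
    refine pow_eq_zero_iff (two_ne_zero) |>.1 ?_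
    linear_combination a' ^ 2 * h + a ^ 2 * h' - 2 * a * a' * h0
  have e2 : a * c' - c * a' = 0 := by
    refine pow_eq_zero_iff (two_ne_zero) |>.1 ?_
    linear_combination (a * c' + c * a' - b * b') * h0 + b' * b' * h - 2 * a * c * h'
  have e3 : b * c' - c * b' = 0 := by
    refine pow_eq_zero_iff (two_ne_zero) |>.1 ?_
    linear_combination c' ^ 2 * h + c ^ 2 * h' - 2 * c * c' * h0
  by_cases ha : a = 0
  · have hb : b = 0 := by
      subst ha
      have : b ^ 2 = 0 := by linear_combination h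
      exact pow_eq_zero_iff (two_ne_zero) |>.1 this
    have hc : c ≠ 0 := fun hc => hne ⟨ha, hb, hc⟩
    subst ha hb
    refine ⟨c' / c, ?_, ?_, ?_⟩
    · have : c * a' = 0 := by linear_combination -e2
      rw [(mul_eq_zero.1 this).resolve_left hc, mul_zero]
    · have : c * b' = 0 := by linear_combination -e3
      rw [(mul_eq_zero.1 this).resolve_left hc, mul_zero]
    · rw [div_mul_cancel₀ _ hc]
  · refine ⟨a' / a, ?_, ?_, ?_⟩
    · rw [div_mul_cancel₀ _ ha]
    · field_simp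
      linear_combination e1
    · field_simp
      linear_combination e2

/-- Three isotropic vectors which are orthogonal to a nonzero vector. -/
theorem gram_zero {x y z a₁ b₁ c₁ a₂ b₂ c₂ a₃ b₃ c₃ : K} (hne : ¬ (x = 0 ∧ y = 0 ∧ z = 0))
    (h1 : b₁ * b₁ + a₁ * c₁ + c₁ * a₁ = 0) (h2 : b₂ * b₂ + a₂ * c₂ + c₂ * a₂ = 0)
    (h3 : b₃ * b₃ + a₃ * c₃ + c₃ * a₃ = 0) (o1 : b₁ * y + a₁ * z + c₁ * x = 0)
    (o2 : b₂ * y + a₂ * z + c₂ * x = 0) (o3 : b₃ * y + a₃ * z + c₃ * x = 0) :
    (b₁ * b₂ + a₁ * c₂ + c₁ * a₂) * (b₂ * b₃ + a₂ * c₃ + c₂ * a₃) *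
      (b₁ * b₃ + a₁ * c₃ + c₁ * a₃) = 0 := by
  have hd : a₁ * (b₂ * c₃ - b₃ * c₂) - b₁ * (a₂ * c₃ - a₃ * c₂) + c₁ * (a₂ * b₃ - a₃ * b₂) = 0 := by
    by_contra hd
    apply hne
    have e1 : (a₁ * (b₂ * c₃ - b₃ * c₂) - b₁ * (a₂ * c₃ - a₃ * c₂) + c₁ * (a₂ * b₃ - a₃ * b₂)) * x = 0 := by
      linear_combination (a₂ * b₃ - a₃ * b₂) * o1 - (a₁ * b₃ - a₃ * b₁) * o2 +
        (a₁ * b₂ - a₂ * b₁) * o3
    have e2 : (a₁ * (b₂ * c₃ - b₃ * c₂) - b₁ * (a₂ * c₃ - a₃ * c₂) + c₁ * (a₂ * b₃ - a₃ * b₂)) * y = 0 := by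
      linear_combination -(a₂ * c₃ - a₃ * c₂) * o1 + (a₁ * c₃ - a₃ * c₁) * o2 -
        (a₁ * c₂ - a₂ * c₁) * o3
    have e3 : (a₁ * (b₂ * c₃ - b₃ * c₂) - b₁ * (a₂ * c₃ - a₃ * c₂) + c₁ * (a₂ * b₃ - a₃ * b₂)) * z = 0 := by
      linear_combination (b₂ * c₃ - b₃ * c₂) * o1 - (b₁ * c₃ - b₃ * c₁) * o2 +
        (b₁ * c₂ - b₂ * c₁) * o3
    exact ⟨(mul_eq_zero.1 e1).resolve_left hd, (mul_eq_zero.1 e2).resolve_left hd,
      (mul_eq_zero.1 e3).resolve_left hd⟩
  have key : (b₁ * b₁ + a₁ * c₁ + c₁ * a₁) * (b₂ * b₂ + a₂ * c₂ + c₂ * a₂) *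
        (b₃ * b₃ + a₃ * c₃ + c₃ * a₃) +
      2 * ((b₁ * b₂ + a₁ * c₂ + c₁ * a₂) * (b₂ * b₃ + a₂ * c₃ + c₂ * a₃) *
        (b₁ * b₃ + a₁ * c₃ + c₁ * a₃)) -
      (b₁ * b₁ + a₁ * c₁ + c₁ * a₁) * (b₂ * b₃ + a₂ * c₃ + c₂ * a₃) ^ 2 -
      (b₂ * b₂ + a₂ * c₂ + c₂ * a₂) * (b₁ * b₃ + a₁ * c₃ + c₁ * a₃) ^ 2 -
      (b₃ * b₃ + a₃ * c₃ + c₃ * a₃) * (b₁ * b₂ + a₁ * c₂ + c₁ * a₂) ^ 2 =
      -(a₁ * (b₂ * c₃ - b₃ * c₂) - b₁ * (a₂ * c₃ - a₃ * c₂) + c₁ * (a₂ * b₃ - a₃ * b₂)) ^ 2 := by
    ring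
  rw [h1, h2, h3, hd] at key
  have h4 : 2 * ((b₁ * b₂ + a₁ * c₂ + c₁ * a₂) * (b₂ * b₃ + a₂ * c₃ + c₂ * a₃) *
        (b₁ * b₃ + a₁ * c₃ + c₁ * a₃)) = 0 := by linear_combination key
  exact (mul_eq_zero.1 h4).resolve_left two_ne_zero

/-- An isotropic vector orthogonal to a given vector. -/
theorem exists_orth [IsAlgClosed K] (x y z : K) : ∃ a b c : K, ¬ (a = 0 ∧ b = 0 ∧ c = 0) ∧
    b * b + a * c + c * a = 0 ∧ b * y + a * z + c * x = 0 := by
  by_cases hx : x = 0
  · subst hx
    exact ⟨0, 0, 1, fun h => one_ne_zero h.2.2, by ring, by ring⟩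
  · obtain ⟨s, hs⟩ := IsAlgClosed.exists_pow_nat_eq (y ^ 2 + 2 * x * z) (n := 2) (by norm_num)
    refine ⟨1, (y + s) / x, -(z + y * ((y + s) / x)) / x, fun h => one_ne_zero h.1, ?_, ?_⟩
    · field_simp
      linear_combination hs
    · field_simp
      ring

end quad

section alg

variable {K : Type*} [Field K] [CharZero K] [IsAlgClosed K] {V : Type*} [AddCommGroup V] [Module K V]
  [FiniteDimensional K V] {N H f : End K V} {r : ℕ} {v : V}

/-- For an element of the normalizer of the principal triple, the square multiplies a regular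
nilpotent element. -/
theorem Triple.exists_isotropic (T : Triple N H f r v) (hr : 0 < r) {g g' : End K V}
    (hgg : g * g' = 1) (hgg' : g' * g = 1)
    (hs : ∀ a b c : K, ∃ a' b' c' : K, g * (a • N + b • H + c • f) * g' =
      a' • N + b' • H + c' • f) :
    ∃ (y : End K V) (μ : K), Reg y r ∧ μ ≠ 0 ∧ (g * g) * y = μ • (y * (g * g)) := by
  classical
  obtain ⟨t, ht, htr⟩ := T.traces hr
  let s : Submodule K (End K V) :=
    { carrier := {X | ∃ a b c : K, X = a • N + b • H + c • f}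
      zero_mem' := ⟨0, 0, 0, by simp⟩
      add_mem' := by
        rintro _ _ ⟨a, b, c, rfl⟩ ⟨a', b', c', rfl⟩
        exact ⟨a + a', b + b', c + c', by module⟩
      smul_mem' := by
        rintro d _ ⟨a, b, c, rfl⟩
        exact ⟨d * a, d * b, d * c, by module⟩ }
  have hmem : ∀ X ∈ s, g * X * g' ∈ s := by
    rintro _ ⟨a, b, c, rfl⟩
    obtain ⟨a', b', c', h⟩ := hs a b c
    exact ⟨a', b', c', h⟩
  let A : s →ₗ[K] s :=
    { toFun := fun X => ⟨g * X.1 * g', hmem _ X.2⟩
      map_add' := fun a b => Subtype.ext (by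
        change g * (a.1 + b.1) * g' = g * a.1 * g' + g * b.1 * g'
        rw [mul_add, add_mul])
      map_smul' := fun c a => Subtype.ext (by
        change g * (c • a.1) * g' = c • (g * a.1 * g')
        rw [mul_smul_comm, smul_mul_assoc]) }
  have hcoord0 : ∀ a b c : K, a • N + b • H + c • f = 0 → a = 0 ∧ b = 0 ∧ c = 0 := by
    intro a b c h
    have h1 := htr a b c 1 0 0
    have h2 := htr a b c 0 1 0
    have h3 := htr a b c 0 0 1
    rw [h, zero_mul, map_zero] at h1 h2 h3
    refine ⟨?_, ?_, ?_⟩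
    · have := (mul_eq_zero.1 h3.symm).resolve_left ht
      linear_combination this
    · have := (mul_eq_zero.1 h2.symm).resolve_left ht
      linear_combination this
    · have := (mul_eq_zero.1 h1.symm).resolve_left ht
      linear_combination this
  have hNs : N ∈ s := ⟨1, 0, 0, by simp⟩
  have hNne : N ≠ 0 := by
    intro h0
    have h1 := hcoord0 1 0 0 (by rw [one_smul, zero_smul, zero_smul, add_zero, add_zero, h0])
    exact one_ne_zero h1.1
  have hnt : Nontrivial s := ⟨⟨N, hNs⟩, 0, fun h => hNne (congrArg Subtype.val h)⟩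
  obtain ⟨lam, hlam⟩ := Module.End.exists_eigenvalue A
  obtain ⟨⟨x0, x, y, z, hx0⟩, hx0'⟩ := hlam.exists_hasEigenvector
  have hAx : g * x0 * g' = lam • x0 := congrArg Subtype.val hx0'.apply_eq_smul
  have hx0ne : x0 ≠ 0 := fun h => hx0'.2 (Subtype.ext h)
  have hxyz : ¬ (x = 0 ∧ y = 0 ∧ z = 0) := by
    rintro ⟨rfl, rfl, rfl⟩
    exact hx0ne (by rw [hx0, zero_smul, zero_smul, zero_smul, add_zero, add_zero])
  have hback : ∀ X : End K V, g' * (g * X * g') * g = X := by
    intro X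
    calc g' * (g * X * g') * g = (g' * g) * X * (g' * g) := by noncomm_ring
      _ = X := by rw [hgg', one_mul, mul_one]
  have hlam0 : lam ≠ 0 := by
    rintro rfl
    apply hx0ne
    rw [← hback x0, hAx, zero_smul, mul_zero, zero_mul]
  have htrg : ∀ X Y : End K V, LinearMap.trace K V ((g * X * g') * (g * Y * g')) =
      LinearMap.trace K V (X * Y) := by
    intro X Y
    have h1 : (g * X * g') * (g * Y * g') = g * (X * Y * g') := by
      calc (g * X * g') * (g * Y * g') = g * X * (g' * g) * Y * g' := by noncomm_ring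
        _ = g * (X * Y * g') := by rw [hgg', mul_one]; noncomm_ring
    rw [h1, LinearMap.trace_mul_comm, mul_assoc, hgg', mul_one]
  obtain ⟨a₁, b₁, c₁, hne, hq1, ho1⟩ := exists_orth x y z
  obtain ⟨a₂, b₂, c₂, h2⟩ := hs a₁ b₁ c₁
  obtain ⟨a₃, b₃, c₃, h3⟩ := hs a₂ b₂ c₂
  have hB : ∀ a b c a' b' c' d e i d' e' i' : K,
      g * (a • N + b • H + c • f) * g' = d • N + e • H + i • f →
      g * (a' • N + b' • H + c' • f) * g' = d' • N + e' • H + i' • f →
      e * e' + d * i' + i * d' = b * b' + a * c' + c * a' := by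
    intro a b c a' b' c' d e i d' e' i' h h'
    have h5 := htrg (a • N + b • H + c • f) (a' • N + b' • H + c' • f)
    rw [h, h', htr, htr] at h5
    exact mul_left_cancel₀ ht h5
  have hx1 : g * (x • N + y • H + z • f) * g' = (lam * x) • N + (lam * y) • H + (lam * z) • f := by
    rw [← hx0, hAx, hx0]
    module
  have hq2 : b₂ * b₂ + a₂ * c₂ + c₂ * a₂ = 0 := (hB _ _ _ _ _ _ _ _ _ _ _ _ h2 h2).trans hq1
  have hq3 : b₃ * b₃ + a₃ * c₃ + c₃ * a₃ = 0 := (hB _ _ _ _ _ _ _ _ _ _ _ _ h3 h3).trans hq2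
  have ho2 : b₂ * y + a₂ * z + c₂ * x = 0 := by
    have h5 := hB _ _ _ _ _ _ _ _ _ _ _ _ h2 hx1
    rw [ho1] at h5
    have h6 : lam * (b₂ * y + a₂ * z + c₂ * x) = 0 := by linear_combination h5
    exact (mul_eq_zero.1 h6).resolve_left hlam0
  have ho3 : b₃ * y + a₃ * z + c₃ * x = 0 := by
    have h5 := hB _ _ _ _ _ _ _ _ _ _ _ _ h3 hx1
    rw [ho2] at h5
    have h6 : lam * (b₃ * y + a₃ * z + c₃ * x) = 0 := by linear_combination h5
    exact (mul_eq_zero.1 h6).resolve_left hlam0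
  have h12 : b₂ * b₃ + a₂ * c₃ + c₂ * a₃ = b₁ * b₂ + a₁ * c₂ + c₁ * a₂ :=
    hB _ _ _ _ _ _ _ _ _ _ _ _ h2 h3
  have hg0 := gram_zero hxyz hq1 hq2 hq3 ho1 ho2 ho3
  have hcomb : ∃ μ : K, a₃ = μ * a₁ ∧ b₃ = μ * b₁ ∧ c₃ = μ * c₁ := by
    by_cases h5 : b₁ * b₂ + a₁ * c₂ + c₁ * a₂ = 0
    · obtain ⟨ν, e1, e2, e3⟩ := prop_of_orth hq1 hq2 h5 hne
      have h6 : g * (a₂ • N + b₂ • H + c₂ • f) * g' =
          (ν * a₂) • N + (ν * b₂) • H + (ν * c₂) • f := by
        have h7 : a₂ • N + b₂ • H + c₂ • f = ν • (a₁ • N + b₁ • H + c₁ • f) := by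
          rw [e1, e2, e3]
          module
        rw [h7, mul_smul_comm, smul_mul_assoc, h2]
        module
      have h7 : (ν * a₂ - a₃) • N + (ν * b₂ - b₃) • H + (ν * c₂ - c₃) • f = 0 := by
        have h8 : (ν * a₂ - a₃) • N + (ν * b₂ - b₃) • H + (ν * c₂ - c₃) • f =
            ((ν * a₂) • N + (ν * b₂) • H + (ν * c₂) • f) - (a₃ • N + b₃ • H + c₃ • f) := by
          module
        rw [h8, ← h6, ← h3, sub_self]
      obtain ⟨i1, i2, i3⟩ := hcoord0 _ _ _ h7
      refine ⟨ν * ν, ?_, ?_, ?_⟩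
      · linear_combination -i1 + ν * e1
      · linear_combination -i2 + ν * e2
      · linear_combination -i3 + ν * e3
    · have h6 : b₁ * b₃ + a₁ * c₃ + c₁ * a₃ = 0 := by
        rw [h12] at hg0
        exact (mul_eq_zero.1 hg0).resolve_left (mul_ne_zero h5 h5)
      exact prop_of_orth hq1 hq3 h6 hne
  obtain ⟨μ, e1, e2, e3⟩ := hcomb
  have hy : Reg (a₁ • N + b₁ • H + c₁ • f) r :=
    T.isotropic (by linear_combination hq1) hne
  have hfin : g * (g * (a₁ • N + b₁ • H + c₁ • f) * g') * g' =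
      μ • (a₁ • N + b₁ • H + c₁ • f) := by
    rw [h2, h3, e1, e2, e3]
    module
  refine ⟨_, μ, hy, ?_, ?_⟩
  · rintro rfl
    rw [zero_smul] at hfin
    have h5 := hback (g * (a₁ • N + b₁ • H + c₁ • f) * g')
    rw [hfin, mul_zero, zero_mul] at h5
    have h6 := hback (a₁ • N + b₁ • H + c₁ • f)
    rw [← h5, mul_zero, zero_mul] at h6
    exact hne (hcoord0 _ _ _ h6.symm)
  · have h5 : μ • (a₁ • N + b₁ • H + c₁ • f) * (g * g) = (g * g) * (a₁ • N + b₁ • H + c₁ • f) := by
      rw [← hfin]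
      calc g * (g * (a₁ • N + b₁ • H + c₁ • f) * g') * g' * (g * g) =
          g * g * (a₁ • N + b₁ • H + c₁ • f) * (g' * (g' * g) * g) := by noncomm_ring
        _ = _ := by rw [hgg', mul_one, hgg', mul_one]
    rw [← h5, smul_mul_assoc]

/-- The eigenvalues of the elements of the normalizer of the principal triple. -/
theorem Triple.eigenvalues (T : Triple N H f r v) (hr : 0 < r) {g g' : End K V}
    (hgg : g * g' = 1) (hgg' : g' * g = 1)
    (hs : ∀ a b c : K, ∃ a' b' c' : K, g * (a • N + b • H + c • f) * g' =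
      a' • N + b' • H + c' • f) :
    ∃ b μ : K, b ≠ 0 ∧ μ ≠ 0 ∧ ∀ lam : K, g.charpoly.IsRoot lam → ∃ j : ℕ, lam ^ 2 * μ ^ j = b := by
  classical
  obtain ⟨y, μ, hy, hμ, hF⟩ := T.exists_isotropic hr hgg hgg' hs
  obtain ⟨u, hu⟩ := hy.exists_vec
  have hyw : y ((y ^ r) u) = 0 := by
    rw [← Module.End.mul_apply, ← pow_succ', hy.pow_dim, LinearMap.zero_apply]
  have hFy : ∀ x, (g * g) (y x) = μ • y ((g * g) x) := fun x => by
    have h1 := congrArg (fun X : End K V => X x) hF
    exact h1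
  have h1 : y ((g * g) ((y ^ r) u)) = 0 := by
    have h2 := hFy ((y ^ r) u)
    rw [hyw, map_zero] at h2
    exact (smul_eq_zero.1 h2.symm).resolve_left hμ
  obtain ⟨b, hb⟩ := hy.ker_one hu h1
  have hginj : ∀ x, g x = 0 → x = 0 := by
    intro x hx
    have h2 : (g' * g) x = g' (g x) := rfl
    rw [hgg', hx, map_zero] at h2
    exact h2
  have hb0 : b ≠ 0 := by
    rintro rfl
    rw [zero_smul] at hb
    exact hu (hginj _ (hginj _ hb))
  refine ⟨b, μ, hb0, hμ, fun lam hlam => ?_⟩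
  have h2 : g.HasEigenvalue lam := (Module.End.hasEigenvalue_iff_isRoot_charpoly g lam).2 hlam
  obtain ⟨x, hx⟩ := h2.exists_hasEigenvector
  have hx1 : g x = lam • x := hx.apply_eq_smul
  have hx2 : (g * g) x = (lam ^ 2) • x := by
    rw [Module.End.mul_apply, hx1, map_smul, hx1, smul_smul, pow_two]
  have hpow : ∀ j : ℕ, (g * g) ((y ^ j) x) = (lam ^ 2 * μ ^ j) • (y ^ j) x := by
    intro j
    induction j with
    | zero => rw [pow_zero, Module.End.one_apply, hx2, pow_zero, mul_one]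
    | succ j ih =>
      rw [pow_succ' y]
      change (g * g) (y ((y ^ j) x)) = (lam ^ 2 * μ ^ (j + 1)) • y ((y ^ j) x)
      rw [hFy, ih, map_smul, smul_smul]
      congr 1
      ring
  have hex : ∃ m, (y ^ m) x = 0 := ⟨r + 1, by rw [hy.pow_dim, LinearMap.zero_apply]⟩
  have hm0 : Nat.find hex ≠ 0 := by
    intro h0
    have h3 := Nat.find_spec hex
    rw [h0, pow_zero, Module.End.one_apply] at h3
    exact hx.2 h3
  obtain ⟨j, hj⟩ := Nat.exists_eq_succ_of_ne_zero hm0
  have h3 : (y ^ j) x ≠ 0 := Nat.find_min hex (show j < Nat.find hex by omega)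
  have h4 : y ((y ^ j) x) = 0 := by
    have h5 := Nat.find_spec hex
    rwa [hj, Nat.succ_eq_add_one, pow_succ', Module.End.mul_apply] at h5
  obtain ⟨c, hc⟩ := hy.ker_one hu h4
  refine ⟨j, ?_⟩
  have h5 := hpow j
  have h6 : (g * g) ((y ^ j) x) = b • (y ^ j) x := by
    rw [hc, map_smul, hb, smul_comm]
  rw [h5] at h6
  have h7 : (lam ^ 2 * μ ^ j - b) • (y ^ j) x = 0 := by rw [sub_smul, h6, sub_self]
  exact sub_eq_zero.1 ((smul_eq_zero.1 h7).resolve_right h3)

end alg

end Pool.Agent.Y114.MU
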