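import Mathlib
import Pool.Agent.H86.CMLib.Y114.MU.Dep

/-!
# The logarithm of a unipotent element kills the Tate forms
-/

set_option autoImplicit false
set_option linter.unusedSectionVars false
set_option linter.unusedVariables false

namespace Pool.Agent.Y114.MU

open Module Polynomial Pool.Agent.Y114.AP Pool.Agent.H204R3.SP

section bp

variable (k : Type*) [Field k] [CharZero k]

/-- The binomial polynomial. -/
noncomputable def bp (j : ℕ) : k[X] := C ((j.factorial : k)⁻¹) * descPochhammer k j

theorem bp_eval (j m : ℕ) : (bp k j).eval (m : k) = (m.choose j : k) := by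
  unfold bp
  rw [eval_mul, eval_C, descPochhammer_eval_eq_descFactorial,
    Nat.descFactorial_eq_factorial_mul_choose, Nat.cast_mul, ← mul_assoc, inv_mul_cancel₀, one_mul]
  exact Nat.cast_ne_zero.2 (Nat.factorial_ne_zero j)

theorem bp_natDegree (j : ℕ) : (bp k j).natDegree ≤ j := by
  unfold bp
  refine (natDegree_C_mul_le _ _).trans ?_
  rw [descPochhammer_natDegree]

theorem bp_coeff_zero (j : ℕ) : (bp k j).coeff 0 = if j = 0 then 1 else 0 := by
  rw [coeff_zero_eq_eval_zero]
  have h := bp_eval k j 0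
  rw [Nat.cast_zero] at h
  rw [h]
  rcases j with _ | j
  · simp
  · simp

theorem bp_zero_coeff : (bp k 0).coeff 1 = 0 := by
  unfold bp
  simp [coeff_one]

theorem bp_one_coeff : (bp k 1).coeff 1 = 1 := by
  unfold bp
  simp

end bp

variable {k : Type*} [Field k] [CharZero k] {V : Type*} [AddCommGroup V] [Module k V]

/-- The coefficients (in `t`) of `(1 + ν) ^ t`. -/
noncomputable def lgA (d : ℕ) (ν : End k V) (i : ℕ) : End k V :=
  ∑ j ∈ Finset.range d, (bp k j).coeff i • ν ^ j

theorem lgA_pow {d : ℕ} {ν : End k V} (hν : ν ^ d = 0) (m : ℕ) :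
    (1 + ν) ^ m = ∑ i ∈ Finset.range d, ((m : k) ^ i) • lgA d ν i := by
  have h1 : (1 + ν) ^ m = ∑ j ∈ Finset.range d, (m.choose j : k) • ν ^ j := by
    rw [add_comm, (Commute.one_right ν).add_pow]
    have h2 : ∀ j : ℕ, ν ^ j * 1 ^ (m - j) * (m.choose j : End k V) = (m.choose j : k) • ν ^ j := by
      intro j
      rw [one_pow, mul_one, Nat.cast_smul_eq_nsmul, nsmul_eq_mul]
      exact (Nat.cast_commute _ _).symm.eq
    rw [Finset.sum_congr rfl fun j _ => h2 j]
    -- both sides agree with the sum over a large range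
    have h3 : ∑ j ∈ Finset.range (m + 1), (m.choose j : k) • ν ^ j =
        ∑ j ∈ Finset.range (m + 1 + d), (m.choose j : k) • ν ^ j := by
      refine Finset.sum_subset (Finset.range_subset_range.2 (by omega)) fun j _ hj => ?_
      rw [Finset.mem_range, not_lt] at hj
      rw [Nat.choose_eq_zero_of_lt (by omega), Nat.cast_zero, zero_smul]
    have h4 : ∑ j ∈ Finset.range d, (m.choose j : k) • ν ^ j =
        ∑ j ∈ Finset.range (m + 1 + d), (m.choose j : k) • ν ^ j := by
      refine Finset.sum_subset (Finset.range_subset_range.2 (by omega)) fun j _ hj => ?_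
      rw [Finset.mem_range, not_lt] at hj
      obtain ⟨c, rfl⟩ := Nat.exists_eq_add_of_le hj
      rw [pow_add, hν, zero_mul, smul_zero]
    rw [h3, h4]
  rw [h1]
  unfold lgA
  simp only [Finset.smul_sum, smul_smul]
  rw [Finset.sum_comm]
  refine Finset.sum_congr rfl fun j hj => ?_
  rw [← Finset.sum_smul]
  congr 1
  rw [← bp_eval, eval_eq_sum_range' (n := d) (lt_of_le_of_lt (bp_natDegree k j)
    (Finset.mem_range.1 hj))]
  exact Finset.sum_congr rfl fun i _ => mul_comm _ _

theorem lgA_zero {d : ℕ} (hd : 0 < d) (ν : End k V) : lgA d ν 0 = 1 := by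
  unfold lgA
  rw [Finset.sum_eq_single 0]
  · rw [bp_coeff_zero, if_pos rfl, one_smul, pow_zero]
  · intro j _ hj
    rw [bp_coeff_zero, if_neg hj, zero_smul]
  · intro h
    exact absurd (Finset.mem_range.2 hd) h

theorem lgA_one (d : ℕ) (ν : End k V) : ∃ w : End k V, Commute ν w ∧
    lgA (d + 2) ν 1 = ν * (1 + ν * w) := by
  refine ⟨∑ j ∈ Finset.range d, (bp k (j + 2)).coeff 1 • ν ^ j, ?_, ?_⟩
  · refine Commute.sum_right _ _ _ fun j _ => ?_
    exact ((Commute.refl ν).pow_right j).smul_right _
  · unfold lgA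
    rw [Finset.sum_range_succ', Finset.sum_range_succ', bp_zero_coeff, bp_one_coeff, zero_smul,
      add_zero, one_smul, mul_add, mul_one, Finset.mul_sum, Finset.mul_sum, zero_add, pow_one,
      add_comm]
    congr 1
    refine Finset.sum_congr rfl fun j _ => ?_
    rw [mul_smul_comm, mul_smul_comm, ← pow_succ', ← pow_succ']

theorem lgA_one_pow (d : ℕ) {ν : End k V} (hν : IsNilpotent ν) (m : ℕ) :
    (lgA (d + 2) ν 1) ^ m = 0 ↔ ν ^ m = 0 := by
  obtain ⟨w, hw, h1⟩ := lgA_one d ν
  have h2 : IsNilpotent (ν * w) := hw.isNilpotent_mul_right hν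
  have h3 : IsUnit (1 + ν * w) := by
    rw [add_comm]
    exact h2.isUnit_add_one
  have hc : Commute ν (1 + ν * w) := (Commute.one_right ν).add_right
    ((Commute.refl ν).mul_right hw)
  rw [h1, hc.mul_pow]
  exact (h3.pow m).mul_left_eq_zero

theorem lgA_one_nil (d : ℕ) {ν : End k V} (hν : IsNilpotent ν) : IsNilpotent (lgA (d + 2) ν 1) := by
  obtain ⟨m, hm⟩ := hν
  exact ⟨m, (lgA_one_pow d ⟨m, hm⟩ m).2 hm⟩

/-- The linear coefficient kills a form which is fixed. -/
theorem kills_of_fixed {κ : Type*} [Fintype κ] [DecidableEq κ]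
    (φ : MultilinearMap k (fun _ : κ => V) k) (A : ℕ → End k V) {d : ℕ} (hd : 2 ≤ d)
    (hA0 : A 0 = 1) {M : ℕ} (hM : 0 < M)
    (h : ∀ (t : ℕ) (v : κ → V), φ (fun l => (∑ i ∈ Finset.range d, (((M * t : ℕ) : k) ^ i) • A i) (v l))
      = φ v) : Kills (A 1) φ := by
  classical
  intro v
  let S : Finset (κ → ℕ) := Fintype.piFinset fun _ => Finset.range d
  let G : k[X] := (∑ r ∈ S, C (φ fun l => A (r l) (v l)) * X ^ (∑ l, r l)) - C (φ v)
  have hG : G = 0 := by
    refine Polynomial.eq_zero_of_infinite_isRoot G ?_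
    refine Set.infinite_of_injective_forall_mem (f := fun t : ℕ => ((M * t : ℕ) : k)) ?_ ?_
    · intro a b hab
      have h1 : M * a = M * b := Nat.cast_injective hab
      exact Nat.eq_of_mul_eq_mul_left hM h1
    · intro t
      change G.IsRoot _
      rw [IsRoot.def]
      simp only [G, eval_sub, eval_finsetSum, eval_mul, eval_C, eval_pow, eval_X]
      rw [sub_eq_zero, ← h t v]
      have h1 : (fun l => (∑ i ∈ Finset.range d, (((M * t : ℕ) : k) ^ i) • A i) (v l)) =
          fun l => ∑ i ∈ Finset.range d, (((M * t : ℕ) : k) ^ i) • A i (v l) := by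
        funext l
        rw [LinearMap.sum_apply]
        rfl
      rw [h1, φ.map_sum_finset (fun l i => (((M * t : ℕ) : k) ^ i) • A i (v l))
        (fun _ => Finset.range d)]
      refine Finset.sum_congr rfl fun r _ => ?_
      rw [φ.map_smul_univ, smul_eq_mul, Finset.prod_pow_eq_pow_sum, mul_comm]
  have h1 := congrArg (fun p : k[X] => p.coeff 1) hG
  simp only [G, coeff_sub, finsetSum_coeff, coeff_C_mul, coeff_X_pow, coeff_zero, coeff_C,
    one_ne_zero, if_false, sub_zero] at h1
  rw [← h1]
  simp only [mul_ite, mul_one, mul_zero]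
  rw [← Finset.sum_filter]
  have hset : S.filter (fun r => 1 = ∑ l, r l) =
      Finset.univ.image (fun l : κ => (Pi.single l 1 : κ → ℕ)) := by
    ext r
    rw [Finset.mem_filter, Finset.mem_image]
    constructor
    · rintro ⟨-, hr⟩
      have hex : ∃ l, r l ≠ 0 := by
        by_contra hcon
        push Not at hcon
        rw [Finset.sum_eq_zero fun l _ => hcon l] at hr
        exact one_ne_zero hr
      obtain ⟨l, hl⟩ := hex
      rw [← Finset.add_sum_erase _ _ (Finset.mem_univ l)] at hr
      have h2 : ∑ x ∈ Finset.univ.erase l, r x = 0 := by omega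
      have h3 : r l = 1 := by omega
      refine ⟨l, Finset.mem_univ l, funext fun x => ?_⟩
      by_cases hx : x = l
      · subst hx
        rw [Pi.single_eq_same, h3]
      · rw [Pi.single_eq_of_ne hx]
        exact ((Finset.sum_eq_zero_iff.1 h2) x (Finset.mem_erase.2 ⟨hx, Finset.mem_univ x⟩)).symm
    · rintro ⟨l, -, rfl⟩
      refine ⟨?_, ?_⟩
      · rw [Fintype.mem_piFinset]
        intro x
        rw [Finset.mem_range]
        by_cases hx : x = l
        · subst hx
          rw [Pi.single_eq_same]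
          omega
        · rw [Pi.single_eq_of_ne hx]
          omega
      · rw [Finset.sum_pi_single', if_pos (Finset.mem_univ l)]
  rw [hset, Finset.sum_image]
  · refine Finset.sum_congr rfl fun l _ => ?_
    congr 1
    funext x
    by_cases hx : x = l
    · subst hx
      rw [Function.update_self, Pi.single_eq_same]
    · rw [Function.update_of_ne hx, Pi.single_eq_of_ne hx, hA0, Module.End.one_apply]
  · intro a _ b _ hab
    by_contra hne
    have h2 := congrFun hab a
    simp only [Pi.single_eq_same, Pi.single_eq_of_ne hne] at h2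
    exact one_ne_zero h2

/-- The logarithm of a unipotent element on which the character is trivial is in the Lie algebra. -/
theorem lg_mem {Γ : Type*} [Group Γ] (ρ : Representation k Γ V) (χ : Γ →* k) {τ : Γ} {d : ℕ}
    (hν : (ρ τ - 1) ^ (d + 2) = 0) (hχ : χ τ = 1) : lgA (d + 2) (ρ τ - 1) 1 ∈ lieT ρ χ := by
  intro m φ hφ
  obtain ⟨Δ, hΔ, hφ⟩ := hφ
  obtain ⟨M, hM0, -, hM⟩ := Subgroup.exists_pow_mem_of_index_ne_zero hΔ.index_ne_zero τ
  refine kills_of_fixed φ (lgA (d + 2) (ρ τ - 1)) (d := d + 2) (by omega) (lgA_zero (by omega) _)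
    hM0 ?_
  intro t v
  have h1 := lgA_pow hν (M * t)
  rw [add_sub_cancel] at h1
  rw [← h1]
  have h2 := hφ (τ ^ (M * t)) (by
    rw [pow_mul]
    exact Subgroup.pow_mem _ hM _) v
  rw [map_pow, map_pow, hχ, one_pow, one_pow, one_mul] at h2
  exact h2

end Pool.Agent.Y114.MU
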